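import Mathlib

set_option autoImplicit false

/-!
# Global existence for bounded Lipschitz vector fields, continuity method
-/

namespace PBH54

open Filter Topology
open scoped NNReal

section

variable {E : Type} [NormedAddCommGroup E] [NormedSpace ℝ E]

/-- Solutions on symmetric intervals. -/
theorem local_sol [CompleteSpace E] {F : E → E} {K L : ℝ≥0} (hK : LipschitzWith K F)
    (hL : ∀ x, ‖F x‖ ≤ L) (x0 : E) (N : ℕ) : ∃ α : ℝ → E, α 0 = x0 ∧
      ∀ t ∈ Set.Ioo (-((N : ℝ) + 1)) ((N : ℝ) + 1), HasDerivAt α (F (α t)) t := by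
  have hN : (0 : ℝ) ≤ (N : ℝ) + 1 := by positivity
  have h0 : (0 : ℝ) ∈ Set.Icc (-((N : ℝ) + 1)) ((N : ℝ) + 1) := ⟨by linarith, hN⟩
  have hpl : IsPicardLindelof (fun _ => F) (tmin := -((N : ℝ) + 1)) (tmax := (N : ℝ) + 1)
      ⟨0, h0⟩ x0 (L * ((N : ℝ≥0) + 1)) 0 L K := by
    refine IsPicardLindelof.of_time_independent (fun x _ => hL x)
      (hK.lipschitzOnWith) ?_
    simp
  obtain ⟨α, h1, h2⟩ := hpl.exists_eq_forall_mem_Icc_hasDerivWithinAt₀
  refine ⟨α, h1, fun t ht => ?_⟩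
  exact (h2 t ⟨ht.1.le, ht.2.le⟩).hasDerivAt (Icc_mem_nhds ht.1 ht.2)

/-- A bounded globally Lipschitz vector field has global solutions. -/
theorem global_sol [CompleteSpace E] {F : E → E} {K L : ℝ≥0} (hK : LipschitzWith K F)
    (hL : ∀ x, ‖F x‖ ≤ L) (x0 : E) :
    ∃ γ : ℝ → E, γ 0 = x0 ∧ ∀ t, HasDerivAt γ (F (γ t)) t := by
  choose α h1 h2 using fun N : ℕ => local_sol hK hL x0 N
  have hu : ∀ N M : ℕ, ∀ t, |t| < (N : ℝ) + 1 → |t| < (M : ℝ) + 1 → α N t = α M t := by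
    intro N M t hN hM
    set b : ℝ := min ((N : ℝ) + 1) ((M : ℝ) + 1) with hb
    have hbN : b ≤ (N : ℝ) + 1 := min_le_left _ _
    have hbM : b ≤ (M : ℝ) + 1 := min_le_right _ _
    have htb : |t| < b := lt_min hN hM
    have hb0 : 0 < b := (abs_nonneg t).trans_lt htb
    have h3 : Set.EqOn (α N) (α M) (Set.Ioo (-b) b) := by
      refine ODE_solution_unique_of_mem_Ioo (v := fun _ => F) (s := fun _ => Set.univ) (K := K)
        (t₀ := 0) (fun t _ => hK.lipschitzOnWith) ⟨by linarith, hb0⟩ ?_ ?_ ?_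
      · intro r hr
        exact ⟨h2 N r ⟨by linarith [hr.1], by linarith [hr.2]⟩, Set.mem_univ _⟩
      · intro r hr
        exact ⟨h2 M r ⟨by linarith [hr.1], by linarith [hr.2]⟩, Set.mem_univ _⟩
      · rw [h1, h1]
    exact h3 ⟨(abs_lt.mp htb).1, (abs_lt.mp htb).2⟩
  refine ⟨fun t => α ⌈|t|⌉₊ t, ?_, ?_⟩
  · simp [h1]
  · intro t
    have hlt : ∀ s : ℝ, |s| < (⌈|s|⌉₊ : ℝ) + 1 := fun s =>
      (Nat.le_ceil _).trans_lt (lt_add_one _)
    have h3 : (fun s => α ⌈|s|⌉₊ s) =ᶠ[𝓝 t] α ⌈|t|⌉₊ := by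
      have h4 : ∀ᶠ s in 𝓝 t, |s| < (⌈|t|⌉₊ : ℝ) + 1 :=
        (continuous_abs.tendsto t).eventually (gt_mem_nhds (hlt t))
      filter_upwards [h4] with s hs
      exact hu _ _ s (hlt s) hs
    have h5 := h2 ⌈|t|⌉₊ t ⟨(abs_lt.mp (hlt t)).1, (abs_lt.mp (hlt t)).2⟩
    exact h5.congr_of_eventuallyEq h3

end

/-- The continuity method. -/
theorem cont_method {f : ℝ → ℝ} {a b T : ℝ} (hf : ContinuousOn f (Set.Icc 0 T)) (hab : a < b)
    (h0 : f 0 ≤ a)
    (h : ∀ T' ∈ Set.Icc 0 T, (∀ t ∈ Set.Icc 0 T', f t ≤ b) → f T' ≤ a) :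
    ∀ t ∈ Set.Icc 0 T, f t ≤ a := by
  -- it is enough that `f ≤ b`
  suffices hb : ∀ t ∈ Set.Icc 0 T, f t ≤ b by
    intro t ht
    exact h t ht fun s hs => hb s ⟨hs.1, hs.2.trans ht.2⟩
  by_contra hcon
  push Not at hcon
  obtain ⟨t2, ht2, hft2⟩ := hcon
  have hcl : IsCompact (Set.Icc 0 T ∩ f ⁻¹' Set.Ici b) :=
    isCompact_Icc.of_isClosed_subset (hf.preimage_isClosed_of_isClosed isClosed_Icc isClosed_Ici)
      Set.inter_subset_left
  obtain ⟨t3, ⟨ht3, hft3⟩, hmin⟩ := hcl.exists_isLeast ⟨t2, ht2, hft2.le⟩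
  have hlt : ∀ t ∈ Set.Icc 0 t3, t ≠ t3 → f t < b := by
    intro t ht hne
    by_contra hcon
    have h1 : t3 ≤ t := hmin ⟨⟨ht.1, ht.2.trans ht3.2⟩, not_lt.mp hcon⟩
    exact hne (le_antisymm ht.2 h1)
  have hle : f t3 ≤ b := by
    by_contra hcon
    have hcon' : b < f t3 := not_le.mp hcon
    have hc : ContinuousOn f (Set.Icc 0 t3) := hf.mono (Set.Icc_subset_Icc_right ht3.2)
    obtain ⟨t4, ht4, hft4⟩ := intermediate_value_Icc ht3.1 hc
      (⟨(h0.trans hab.le), hcon'.le⟩ : b ∈ Set.Icc (f 0) (f t3))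
    rcases eq_or_ne t4 t3 with h5 | h5
    · rw [h5] at hft4
      linarith
    · have := hlt t4 ht4 h5
      linarith
  have h6 := h t3 ht3 fun t ht => by
    rcases eq_or_ne t t3 with h5 | h5
    · rw [h5]
      exact hle
    · exact (hlt t ht h5).le
  have h7 : b ≤ f t3 := hft3
  linarith

/-- A solution of `f' = g f` with `f 0 > 0` stays positive. -/
theorem pos_of_lin {f g : ℝ → ℝ} {T : ℝ} (hf : ∀ t ∈ Set.Icc 0 T, HasDerivAt f (g t * f t) t)
    (hg : ContinuousOn g (Set.Icc 0 T)) (h0 : 0 < f 0) : ∀ t ∈ Set.Icc 0 T, 0 < f t := by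
  have hc : ContinuousOn f (Set.Icc 0 T) := fun t ht => (hf t ht).continuousAt.continuousWithinAt
  have hne : ∀ t ∈ Set.Icc 0 T, f t ≠ 0 := by
    intro t ht hft
    obtain ⟨M, hM⟩ : ∃ M, ∀ s ∈ Set.Icc 0 T, ‖g s‖ ≤ M := isCompact_Icc.exists_bound_of_continuousOn hg
    have hmem : ∀ s ∈ Set.Icc 0 t, t - s ∈ Set.Icc 0 T := fun s hs =>
      ⟨by linarith [hs.2], by linarith [hs.1, ht.2]⟩
    have hd : ∀ s ∈ Set.Icc 0 t, HasDerivAt (fun s => f (t - s)) (-(g (t - s) * f (t - s))) s := by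
      intro s hs
      have h1 := (hf (t - s) (hmem s hs)).scomp s ((hasDerivAt_id s).const_sub t)
      refine h1.congr_deriv ?_
      simp
    have hz : ∀ s ∈ Set.Icc 0 t, f (t - s) = 0 := by
      refine eq_zero_of_abs_deriv_le_mul_abs_self_of_eq_zero_right
        (f' := fun s => -(g (t - s) * f (t - s))) (K := M) ?_ ?_ ?_ ?_
      · intro s hs
        exact (hd s hs).continuousAt.continuousWithinAt
      · intro s hs
        exact (hd s ⟨hs.1, hs.2.le⟩).hasDerivWithinAt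
      · rw [sub_zero]
        exact hft
      · intro s hs
        rw [norm_neg, norm_mul]
        exact mul_le_mul_of_nonneg_right (hM _ (hmem s ⟨hs.1, hs.2.le⟩)) (norm_nonneg _)
    have h2 := hz t ⟨ht.1, le_rfl⟩
    rw [sub_self] at h2
    exact h0.ne' h2
  intro t ht
  by_contra hcon
  have hcon' : f t ≤ 0 := not_lt.mp hcon
  have hc' : ContinuousOn f (Set.Icc 0 t) := hc.mono (Set.Icc_subset_Icc_right ht.2)
  obtain ⟨s, hs, hfs⟩ := intermediate_value_Icc' ht.1 hc' (⟨hcon', h0.le⟩ : (0 : ℝ) ∈ Set.Icc (f t) (f 0))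
  exact hne s ⟨hs.1, hs.2.trans ht.2⟩ hfs

end PBH54
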