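import Mathlib

set_option autoImplicit false

/-!
# A polynomial identity persists along the solutions of a polynomial differential equation
-/

namespace PBH54

open Filter Topology MvPolynomial

section

variable {σ : Type} [Finite σ]

/-- Chain rule for polynomials along a curve with velocity `P V`. -/
theorem hasDerivAt_eval (V : σ → MvPolynomial σ ℝ) (z : ℝ → σ → ℝ) (p t : ℝ)
    (hz : ∀ i, HasDerivAt (fun t => z t i) (p * eval (z t) (V i)) t) (F : MvPolynomial σ ℝ) :
    HasDerivAt (fun t => eval (z t) F) (p * eval (z t) (mkDerivation ℝ V F)) t := by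
  induction F using MvPolynomial.induction_on with
  | C a =>
    simp only [eval_C, derivation_C, map_zero, mul_zero]
    exact hasDerivAt_const t a
  | add F G hF hG =>
    simp only [map_add]
    refine (hF.add hG).congr_deriv ?_
    ring
  | mul_X F i hF =>
    simp only [map_mul, eval_X, Derivation.leibniz, mkDerivation_X, smul_eq_mul, map_add]
    refine (hF.mul (hz i)).congr_deriv ?_
    ring

/-- The ideals generated by the first derivatives become stationary. -/
theorem exists_rel (D : MvPolynomial σ ℝ → MvPolynomial σ ℝ) (G : MvPolynomial σ ℝ) :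
    ∃ (K : ℕ) (c : Fin K → MvPolynomial σ ℝ), D^[K] G = ∑ j, c j * D^[(j : ℕ)] G := by
  let f : ℕ →o Ideal (MvPolynomial σ ℝ) :=
    ⟨fun m => Ideal.span (Set.range fun j : Fin m => D^[(j : ℕ)] G), by
      intro a b hab
      refine Ideal.span_mono ?_
      rintro _ ⟨j, rfl⟩
      exact ⟨⟨j.1, lt_of_lt_of_le j.2 hab⟩, rfl⟩⟩
  obtain ⟨K, hK⟩ := monotone_stabilizes_iff_noetherian.mpr
    (inferInstance : IsNoetherian (MvPolynomial σ ℝ) (MvPolynomial σ ℝ)) f
  have h1 : D^[K] G ∈ f (K + 1) := Ideal.subset_span ⟨⟨K, Nat.lt_succ_self K⟩, rfl⟩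
  rw [← hK (K + 1) (Nat.le_succ K)] at h1
  have h2 : D^[K] G ∈ Submodule.span (MvPolynomial σ ℝ)
    (Set.range fun j : Fin K => D^[(j : ℕ)] G) := h1
  rw [Submodule.mem_span_range_iff_exists_fun] at h2
  obtain ⟨c, hc⟩ := h2
  refine ⟨K, c, ?_⟩
  rw [← hc]
  simp [smul_eq_mul]

/-- **Persistence.** -/
theorem persist (V : σ → MvPolynomial σ ℝ) (G : MvPolynomial σ ℝ)
    (c : ℝ → σ → ℝ) (ε : ℝ) (hε : 0 < ε)
    (hc : ∀ s, |s| < ε → ∀ i, HasDerivAt (fun s => c s i) (eval (c s) (V i)) s)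
    (hG : ∀ s, |s| < ε → eval (c s) G = 0)
    (z : ℝ → σ → ℝ) (P : ℝ → ℝ) (T : ℝ)
    (hz : ∀ t ∈ Set.Icc 0 T, ∀ i, HasDerivAt (fun t => z t i) (P t * eval (z t) (V i)) t)
    (hP : ContinuousOn P (Set.Icc 0 T)) (h0 : z 0 = c 0) :
    ∀ t ∈ Set.Icc 0 T, eval (z t) G = 0 := by
  -- all derivatives vanish along `c`
  have hall : ∀ j : ℕ, ∀ s, |s| < ε → eval (c s) ((mkDerivation ℝ V)^[j] G) = 0 := by
    intro j
    induction j with
    | zero => exact hG
    | succ j ih =>
      intro s hs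
      have h1 := hasDerivAt_eval V c 1 s (fun i => by
        rw [one_mul]
        exact hc s hs i) ((mkDerivation ℝ V)^[j] G)
      rw [one_mul] at h1
      have h2 : (fun s => eval (c s) ((mkDerivation ℝ V)^[j] G)) =ᶠ[𝓝 s] fun _ => 0 := by
        have h3 : ∀ᶠ r in 𝓝 s, |r| < ε := (continuous_abs.tendsto s).eventually (gt_mem_nhds hs)
        filter_upwards [h3] with r hr
        exact ih r hr
      have h4 := h1.unique ((hasDerivAt_const s (0 : ℝ)).congr_of_eventuallyEq h2)
      rw [Function.iterate_succ_apply']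
      exact h4
  obtain ⟨K, a, ha⟩ := exists_rel (mkDerivation ℝ V) G
  -- continuity along `z`
  have hzc : ∀ F : MvPolynomial σ ℝ, ContinuousOn (fun t => eval (z t) F) (Set.Icc 0 T) :=
    fun F t ht => (hasDerivAt_eval V z (P t) t (hz t ht) F).continuousAt.continuousWithinAt
  -- bounds
  obtain ⟨M, hM⟩ : ∃ M, ∀ t ∈ Set.Icc 0 T, ‖P t‖ ≤ M :=
    isCompact_Icc.exists_bound_of_continuousOn hP
  have hA : ∀ j : Fin K, ∃ A, ∀ t ∈ Set.Icc 0 T, ‖eval (z t) (a j)‖ ≤ A := fun j =>
    isCompact_Icc.exists_bound_of_continuousOn (hzc (a j))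
  choose A hA using hA
  -- the vector of the first `K` derivatives
  let y : ℝ → Fin K → ℝ := fun t j => eval (z t) ((mkDerivation ℝ V)^[(j : ℕ)] G)
  let y' : ℝ → Fin K → ℝ := fun t j => P t * eval (z t) ((mkDerivation ℝ V)^[(j : ℕ) + 1] G)
  have hy : ∀ t ∈ Set.Icc 0 T, HasDerivAt y (y' t) t := by
    intro t ht
    rw [hasDerivAt_pi]
    intro j
    have h1 := hasDerivAt_eval V z (P t) t (hz t ht) ((mkDerivation ℝ V)^[(j : ℕ)] G)
    change HasDerivAt (fun t => eval (z t) ((mkDerivation ℝ V)^[(j : ℕ)] G))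
      (P t * eval (z t) ((mkDerivation ℝ V)^[(j : ℕ) + 1] G)) t
    rw [Function.iterate_succ_apply']
    exact h1
  have hbound : ∀ t ∈ Set.Icc 0 T, ‖y' t‖ ≤ (|M| * (1 + ∑ j, |A j|)) * ‖y t‖ := by
    intro t ht
    have hS : 0 ≤ ∑ j, |A j| := Finset.sum_nonneg fun j _ => abs_nonneg _
    rw [pi_norm_le_iff_of_nonneg (mul_nonneg (mul_nonneg (abs_nonneg _) (by linarith))
      (norm_nonneg _))]
    intro j
    have h1 : ‖P t‖ ≤ |M| := (hM t ht).trans (le_abs_self M)
    have h2 : ‖eval (z t) ((mkDerivation ℝ V)^[(j : ℕ) + 1] G)‖ ≤ (1 + ∑ j, |A j|) * ‖y t‖ := by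
      by_cases hj : (j : ℕ) + 1 < K
      · have h3 : ‖y t ⟨(j : ℕ) + 1, hj⟩‖ ≤ ‖y t‖ := norm_le_pi_norm (y t) _
        have h4 : ‖y t‖ ≤ (1 + ∑ j, |A j|) * ‖y t‖ :=
          le_mul_of_one_le_left (norm_nonneg _) (by linarith)
        exact h3.trans h4
      · have hjK : (j : ℕ) + 1 = K := le_antisymm j.2 (not_lt.mp hj)
        rw [hjK, ha, map_sum]
        have h5 : ‖∑ i, eval (z t) (a i * (mkDerivation ℝ V)^[(i : ℕ)] G)‖ ≤
            ∑ i, |A i| * ‖y t‖ := by
          refine (norm_sum_le _ _).trans (Finset.sum_le_sum fun i _ => ?_)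
          rw [map_mul, norm_mul]
          exact mul_le_mul ((hA i t ht).trans (le_abs_self _)) (norm_le_pi_norm (y t) i)
            (norm_nonneg _) (abs_nonneg _)
        rw [← Finset.sum_mul] at h5
        refine h5.trans (mul_le_mul_of_nonneg_right (by linarith) (norm_nonneg _))
    change ‖P t * eval (z t) ((mkDerivation ℝ V)^[(j : ℕ) + 1] G)‖ ≤ _
    rw [norm_mul, mul_assoc]
    exact mul_le_mul h1 h2 (norm_nonneg _) (abs_nonneg _)
  have hzero : ∀ t ∈ Set.Icc 0 T, y t = 0 := by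
    refine eq_zero_of_abs_deriv_le_mul_abs_self_of_eq_zero_right (f' := y')
      (K := |M| * (1 + ∑ j, |A j|)) ?_ ?_ ?_ ?_
    · intro t ht
      exact (hy t ht).continuousAt.continuousWithinAt
    · intro t ht
      exact (hy t ⟨ht.1, ht.2.le⟩).hasDerivWithinAt
    · funext j
      change eval (z 0) ((mkDerivation ℝ V)^[(j : ℕ)] G) = 0
      rw [h0]
      exact hall j 0 (by simpa using hε)
    · intro t ht
      exact hbound t ⟨ht.1, ht.2.le⟩
  intro t ht
  rcases Nat.eq_zero_or_pos K with hK | hK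
  · subst hK
    have h1 : G = 0 := by
      simpa using ha
    rw [h1, map_zero]
  · have := congrFun (hzero t ht) ⟨0, hK⟩
    exact this

end

end PBH54
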