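import Pool.Agent.Lib.MP_8d4425_gt.E54.End
import Pool.Agent.Lib.MP_8d4425_gt.E54.Persist
import Pool.Agent.Lib.MP_8d4425_gt.E54.Glob

set_option autoImplicit false

/-!
# A priori bounds on `[0, T]`
-/

namespace PBH54

open Filter Topology MvPolynomial

variable {n : ℕ}

/-! ## The polynomials -/

noncomputable def kp (n : ℕ) (μ : ℝ) : MvPolynomial (Fin n ⊕ Fin n) ℝ :=
  C (-μ) * ∑ i, X (Sum.inl i)

noncomputable def VV (n : ℕ) (μ : ℝ) : Fin n ⊕ Fin n → MvPolynomial (Fin n ⊕ Fin n) ℝ :=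
  Sum.elim (fun i => (kp n μ - X (Sum.inl i)) * X (Sum.inr i))
    (fun i => -(X (Sum.inr i)) ^ 2 - kp n μ * X (Sum.inl i))

noncomputable def k1p (n : ℕ) (μ : ℝ) : MvPolynomial (Fin n ⊕ Fin n) ℝ :=
  C (-μ) * ∑ i, (kp n μ - X (Sum.inl i)) * X (Sum.inr i)

theorem D_kp (n : ℕ) (μ : ℝ) : mkDerivation ℝ (VV n μ) (kp n μ) = k1p n μ := by
  calc mkDerivation ℝ (VV n μ) (kp n μ)
      = mkDerivation ℝ (VV n μ) (C (-μ) * ∑ i, X (Sum.inl i)) := rfl
    _ = C (-μ) * ∑ i, mkDerivation ℝ (VV n μ) (X (Sum.inl i)) := by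
        rw [Derivation.leibniz, derivation_C, smul_zero, add_zero, map_sum, smul_eq_mul]
    _ = k1p n μ := by
        unfold k1p
        refine congrArg (fun a => C (-μ) * a) (Finset.sum_congr rfl fun i _ => ?_)
        rw [mkDerivation_X]
        rfl

noncomputable def GG (n : ℕ) (μ ν : ℝ) : MvPolynomial (Fin n ⊕ Fin n) ℝ :=
  mkDerivation ℝ (VV n μ) (k1p n μ) - (kp n μ * (C (1 + ν) * kp n μ ^ 2 +
    ∑ i, X (Sum.inl i) ^ 2) - (∑ i, X (Sum.inr i)) * k1p n μ)

/-! ## The planar model -/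

section

variable (u v : Fin n → ℝ) (μ : ℝ) (x y θ : ℝ → ℝ)

noncomputable def eta (i : Fin n) (t : ℝ) : ℝ := v i * Real.cos (θ t) - u i * Real.sin (θ t)

noncomputable def tau (i : Fin n) (t : ℝ) : ℝ := u i * Real.cos (θ t) + v i * Real.sin (θ t)

/-- The point of the phase space. -/
noncomputable def zz (t : ℝ) : Fin n ⊕ Fin n → ℝ :=
  Sum.elim (fun i => -(eta u v θ i t / rho u v x y i t)) (fun i => tau u v θ i t / rho u v x y i t)

/-- The negative curvature. -/
noncomputable def qq (t : ℝ) : ℝ := -(μ * ∑ i, eta u v θ i t / rho u v x y i t)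

/-- Its derivative. -/
noncomputable def ww (t : ℝ) : ℝ := -(Pr u v x y t * eval (zz u v x y θ t) (k1p n μ))

/-- A solution of the planar system on `[0, T]`. -/
structure Loc (T : ℝ) : Prop where
  dx : ∀ t ∈ Set.Icc 0 T, HasDerivAt x (Pr u v x y t * Real.cos (θ t)) t
  dy : ∀ t ∈ Set.Icc 0 T, HasDerivAt y (Pr u v x y t * Real.sin (θ t)) t
  dθ : ∀ t ∈ Set.Icc 0 T, HasDerivAt θ (μ * ∑ i, eta u v θ i t *
    ∏ j ∈ Finset.univ.erase i, rho u v x y j t) t
  x0 : x 0 = 0
  y0 : y 0 = 0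
  θ0 : θ 0 = 0

theorem eval_kp (t : ℝ) : eval (zz u v x y θ t) (kp n μ) = -qq u v μ x y θ t := by
  unfold kp qq zz
  simp only [map_mul, eval_C, map_sum, eval_X, Sum.elim_inl, Finset.sum_neg_distrib]
  ring

end

namespace Loc

variable {u v : Fin n → ℝ} {μ : ℝ} {x y θ : ℝ → ℝ} {T : ℝ}

theorem dρ (h : Loc u v μ x y θ T) (i : Fin n) : ∀ t ∈ Set.Icc 0 T,
    HasDerivAt (rho u v x y i) (Pr u v x y t * tau u v θ i t) t := by
  intro t ht
  have h1 := (((h.dx t ht).const_mul (u i)).const_add 1).add ((h.dy t ht).const_mul (v i))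
  refine h1.congr_deriv ?_
  unfold tau
  ring

theorem cθ (h : Loc u v μ x y θ T) : ContinuousOn θ (Set.Icc 0 T) := fun t ht =>
  (h.dθ t ht).continuousAt.continuousWithinAt

theorem cρ (h : Loc u v μ x y θ T) (i : Fin n) :
    ContinuousOn (rho u v x y i) (Set.Icc 0 T) := fun t ht =>
  (h.dρ i t ht).continuousAt.continuousWithinAt

theorem cτ (h : Loc u v μ x y θ T) (i : Fin n) :
    ContinuousOn (tau u v θ i) (Set.Icc 0 T) :=
  (continuousOn_const.mul (Real.continuous_cos.comp_continuousOn h.cθ)).add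
    (continuousOn_const.mul (Real.continuous_sin.comp_continuousOn h.cθ))

theorem cP (h : Loc u v μ x y θ T) : ContinuousOn (Pr u v x y) (Set.Icc 0 T) :=
  continuousOn_finsetProd _ fun i _ => h.cρ i

theorem P_split (u v : Fin n → ℝ) (x y : ℝ → ℝ) (i : Fin n) (t : ℝ) : Pr u v x y t =
    rho u v x y i t * ∏ j ∈ Finset.univ.erase i, rho u v x y j t :=
  (Finset.mul_prod_erase _ (fun j => rho u v x y j t) (Finset.mem_univ i)).symm

theorem ρpos (h : Loc u v μ x y θ T) (i : Fin n) : ∀ t ∈ Set.Icc 0 T,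
    0 < rho u v x y i t := by
  refine pos_of_lin (g := fun t => (∏ j ∈ Finset.univ.erase i, rho u v x y j t) *
    tau u v θ i t) ?_ ?_ ?_
  · intro t ht
    refine (h.dρ i t ht).congr_deriv ?_
    rw [P_split u v x y i t]
    ring
  · exact (continuousOn_finsetProd _ fun j _ => h.cρ j).mul (h.cτ i)
  · unfold rho
    rw [h.x0, h.y0]
    norm_num

theorem Ppos (h : Loc u v μ x y θ T) : ∀ t ∈ Set.Icc 0 T, 0 < Pr u v x y t :=
  fun t ht => Finset.prod_pos fun i _ => h.ρpos i t ht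

/-- `θ' = - P q`. -/
theorem dθ' (h : Loc u v μ x y θ T) : ∀ t ∈ Set.Icc 0 T,
    HasDerivAt θ (-(Pr u v x y t * qq u v μ x y θ t)) t := by
  intro t ht
  refine (h.dθ t ht).congr_deriv ?_
  unfold qq
  rw [mul_neg, neg_neg, mul_left_comm, Finset.mul_sum (a := Pr u v x y t)]
  congr 1
  refine Finset.sum_congr rfl fun i _ => ?_
  rw [P_split u v x y i t]
  have := (h.ρpos i t ht).ne'
  field_simp

theorem dη (h : Loc u v μ x y θ T) (i : Fin n) : ∀ t ∈ Set.Icc 0 T,
    HasDerivAt (eta u v θ i) (Pr u v x y t * qq u v μ x y θ t * tau u v θ i t) t := by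
  intro t ht
  have h1 := ((h.dθ' t ht).cos.const_mul (v i)).sub ((h.dθ' t ht).sin.const_mul (u i))
  refine h1.congr_deriv ?_
  unfold tau
  ring

theorem dτ (h : Loc u v μ x y θ T) (i : Fin n) : ∀ t ∈ Set.Icc 0 T,
    HasDerivAt (tau u v θ i) (-(Pr u v x y t * qq u v μ x y θ t * eta u v θ i t)) t := by
  intro t ht
  have h1 := ((h.dθ' t ht).cos.const_mul (u i)).add ((h.dθ' t ht).sin.const_mul (v i))
  refine h1.congr_deriv ?_
  unfold eta
  ring

/-- The phase space equation. -/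
theorem dz (h : Loc u v μ x y θ T) : ∀ t ∈ Set.Icc 0 T, ∀ i,
    HasDerivAt (fun t => zz u v x y θ t i)
      (Pr u v x y t * eval (zz u v x y θ t) (VV n μ i)) t := by
  intro t ht i
  have hk := eval_kp u v μ x y θ t
  rcases i with i | i
  · have hne := (h.ρpos i t ht).ne'
    have h1 := ((h.dη i t ht).div (h.dρ i t ht) hne).neg
    refine h1.congr_deriv ?_
    simp only [VV, Sum.elim_inl, map_mul, map_sub, eval_X, hk]
    change _ = Pr u v x y t * ((-qq u v μ x y θ t - -(eta u v θ i t / rho u v x y i t)) *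
      (tau u v θ i t / rho u v x y i t))
    field_simp
    ring
  · have hne := (h.ρpos i t ht).ne'
    have h1 := (h.dτ i t ht).div (h.dρ i t ht) hne
    refine h1.congr_deriv ?_
    simp only [VV, Sum.elim_inr, map_mul, map_sub, map_neg, map_pow, eval_X, hk]
    change _ = Pr u v x y t * (-(tau u v θ i t / rho u v x y i t) ^ 2 -
      -qq u v μ x y θ t * -(eta u v θ i t / rho u v x y i t))
    field_simp
    ring

theorem dq (h : Loc u v μ x y θ T) : ∀ t ∈ Set.Icc 0 T,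
    HasDerivAt (qq u v μ x y θ) (ww u v μ x y θ t) t := by
  intro t ht
  have h1 := (hasDerivAt_eval (VV n μ) (zz u v x y θ) (Pr u v x y t) t (h.dz t ht) (kp n μ)).neg
  rw [D_kp] at h1
  have h2 : (fun t => -eval (zz u v x y θ t) (kp n μ)) = qq u v μ x y θ := by
    funext s
    rw [eval_kp, neg_neg]
  have h3 : (-fun t => eval (zz u v x y θ t) (kp n μ)) = qq u v μ x y θ := h2
  rw [h3] at h1
  exact h1

theorem dP (h : Loc u v μ x y θ T) : ∀ t ∈ Set.Icc 0 T,
    HasDerivAt (Pr u v x y) (Pr u v x y t ^ 2 *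
      ∑ i, tau u v θ i t / rho u v x y i t) t := by
  intro t ht
  have h1 : HasDerivAt (Pr u v x y) (∑ i, (∏ j ∈ Finset.univ.erase i, rho u v x y j t) •
      (Pr u v x y t * tau u v θ i t)) t :=
    HasDerivAt.fun_finsetProd fun i _ => h.dρ i t ht
  refine h1.congr_deriv ?_
  rw [Finset.mul_sum]
  refine Finset.sum_congr rfl fun i _ => ?_
  have hne := (h.ρpos i t ht).ne'
  rw [smul_eq_mul]
  have h2 := P_split u v x y i t
  have h3 : ∏ j ∈ Finset.univ.erase i, rho u v x y j t = Pr u v x y t / rho u v x y i t := by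
    rw [h2]
    field_simp
  rw [h3]
  ring

/-- The second derivative of `q`. -/
theorem dw (h : Loc u v μ x y θ T) {ν : ℝ}
    (hG : ∀ t ∈ Set.Icc 0 T, eval (zz u v x y θ t) (GG n μ ν) = 0) : ∀ t ∈ Set.Icc 0 T,
    HasDerivAt (ww u v μ x y θ) (Pr u v x y t ^ 2 * (qq u v μ x y θ t *
      ((1 + ν) * qq u v μ x y θ t ^ 2 + ∑ i, (eta u v θ i t / rho u v x y i t) ^ 2))) t := by
  intro t ht
  have h1 := hasDerivAt_eval (VV n μ) (zz u v x y θ) (Pr u v x y t) t (h.dz t ht) (k1p n μ)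
  have h2 := ((h.dP t ht).mul h1).neg
  refine h2.congr_deriv ?_
  have h3 := hG t ht
  unfold GG at h3
  simp only [map_sub, map_mul, map_add, eval_C, map_pow, map_sum, eval_X, eval_kp] at h3
  have h4 : ∑ i, zz u v x y θ t (Sum.inr i) = ∑ i, tau u v θ i t / rho u v x y i t := rfl
  have h5 : ∑ i, zz u v x y θ t (Sum.inl i) ^ 2 = ∑ i, (eta u v θ i t / rho u v x y i t) ^ 2 := by
    refine Finset.sum_congr rfl fun i _ => ?_
    change (-(eta u v θ i t / rho u v x y i t)) ^ 2 = _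
    ring
  rw [h4, h5] at h3
  linear_combination (-(Pr u v x y t ^ 2)) * h3

end Loc

end PBH54
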