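import Pool.Agent.Lib.MP_8d4425_gt.E54.Apri

set_option autoImplicit false

/-!
# The a priori bounds on `[0, T]`
-/

namespace PBH54

open Filter Topology MvPolynomial

variable {n : ℕ}

/-- Monotone on `[0, T]`. -/
theorem mono_on {f f' : ℝ → ℝ} {T : ℝ} (h : ∀ t ∈ Set.Icc 0 T, HasDerivAt f (f' t) t)
    (h0 : ∀ t ∈ Set.Icc 0 T, 0 ≤ f' t) : ∀ t ∈ Set.Icc 0 T, f 0 ≤ f t := by
  intro t ht
  have h1 : MonotoneOn f (Set.Icc 0 T) := by
    apply monotoneOn_of_deriv_nonneg (convex_Icc 0 T)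
    · intro r hr
      exact (h r hr).continuousAt.continuousWithinAt
    · intro r hr
      rw [interior_Icc] at hr
      exact (h r ⟨hr.1.le, hr.2.le⟩).differentiableAt.differentiableWithinAt
    · intro r hr
      rw [interior_Icc] at hr
      rw [(h r ⟨hr.1.le, hr.2.le⟩).deriv]
      exact h0 r ⟨hr.1.le, hr.2.le⟩
  exact h1 ⟨le_rfl, ht.1.trans ht.2⟩ ht ht.1

/-- The coordinates are bounded. -/
theorem bnd {P x θ q q' : ℝ → ℝ} {T : ℝ}
    (dx : ∀ t ∈ Set.Icc 0 T, HasDerivAt x (P t * Real.cos (θ t)) t)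
    (dθ : ∀ t ∈ Set.Icc 0 T, HasDerivAt θ (-(P t * q t)) t)
    (dq : ∀ t ∈ Set.Icc 0 T, HasDerivAt q (q' t) t) (hq' : ∀ t ∈ Set.Icc 0 T, 0 ≤ q' t)
    (qpos : ∀ t ∈ Set.Icc 0 T, 0 < q t) (x0 : x 0 = 0) : ∀ t ∈ Set.Icc 0 T, |x t| ≤ 2 / q 0 := by
  intro t ht
  have hT : (0 : ℝ) ∈ Set.Icc 0 T := ⟨le_rfl, ht.1.trans ht.2⟩
  have d1 : ∀ t ∈ Set.Icc 0 T, HasDerivAt (fun t => x t + (Real.sin (θ t) - 1) / q t)
      ((1 - Real.sin (θ t)) * q' t / q t ^ 2) t := by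
    intro t ht
    have hq := (qpos t ht).ne'
    have h1 := (dx t ht).add ((((dθ t ht).sin).sub_const 1).div (dq t ht) hq)
    refine h1.congr_deriv ?_
    field_simp
    ring
  have d2 : ∀ t ∈ Set.Icc 0 T, HasDerivAt (fun t => -(x t + (Real.sin (θ t) + 1) / q t))
      ((1 + Real.sin (θ t)) * q' t / q t ^ 2) t := by
    intro t ht
    have hq := (qpos t ht).ne'
    have h1 := ((dx t ht).add ((((dθ t ht).sin).add_const 1).div (dq t ht) hq)).neg
    refine h1.congr_deriv ?_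
    field_simp
    ring
  have p1 : ∀ t ∈ Set.Icc 0 T, 0 ≤ (1 - Real.sin (θ t)) * q' t / q t ^ 2 := by
    intro t ht
    have h1 := Real.sin_le_one (θ t)
    exact div_nonneg (mul_nonneg (by linarith) (hq' t ht)) (sq_nonneg _)
  have p2 : ∀ t ∈ Set.Icc 0 T, 0 ≤ (1 + Real.sin (θ t)) * q' t / q t ^ 2 := by
    intro t ht
    have h1 := Real.neg_one_le_sin (θ t)
    exact div_nonneg (mul_nonneg (by linarith) (hq' t ht)) (sq_nonneg _)
  have m1 := mono_on d1 p1 t ht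
  have m2 := mono_on d2 p2 t ht
  simp only [x0, zero_add] at m1 m2
  have q0 := qpos 0 hT
  have qt := qpos t ht
  have e1 : -(2 / q 0) ≤ (Real.sin (θ 0) - 1) / q 0 := by
    rw [← neg_div]
    refine div_le_div_of_nonneg_right ?_ q0.le
    have := Real.neg_one_le_sin (θ 0)
    linarith
  have e2 : (Real.sin (θ 0) + 1) / q 0 ≤ 2 / q 0 := by
    refine div_le_div_of_nonneg_right ?_ q0.le
    have := Real.sin_le_one (θ 0)
    linarith
  have e3 : (Real.sin (θ t) - 1) / q t ≤ 0 := by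
    refine div_nonpos_of_nonpos_of_nonneg ?_ qt.le
    have := Real.sin_le_one (θ t)
    linarith
  have e4 : 0 ≤ (Real.sin (θ t) + 1) / q t := by
    refine div_nonneg ?_ qt.le
    have := Real.neg_one_le_sin (θ t)
    linarith
  rw [abs_le]
  constructor <;> linarith

namespace Loc

variable {u v : Fin n → ℝ} {μ ν : ℝ} {x y θ : ℝ → ℝ} {T : ℝ}

/-- `q` stays positive and `q'` increases. -/
theorem q_w (h : Loc u v μ x y θ T) (hν : 0 ≤ ν)
    (hG : ∀ t ∈ Set.Icc 0 T, eval (zz u v x y θ t) (GG n μ ν) = 0)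
    (hq0 : 0 < qq u v μ x y θ 0) (hw0 : 0 < ww u v μ x y θ 0) : ∀ t ∈ Set.Icc 0 T,
    0 < qq u v μ x y θ t ∧ ww u v μ x y θ 0 ≤ ww u v μ x y θ t := by
  have hS : ∀ t, 0 ≤ (1 + ν) * qq u v μ x y θ t ^ 2 +
      ∑ i, (eta u v θ i t / rho u v x y i t) ^ 2 := fun t =>
    add_nonneg (mul_nonneg (by linarith) (sq_nonneg _))
      (Finset.sum_nonneg fun i _ => sq_nonneg _)
  -- `q w` increases
  have hm : ∀ t ∈ Set.Icc 0 T, qq u v μ x y θ 0 * ww u v μ x y θ 0 ≤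
      qq u v μ x y θ t * ww u v μ x y θ t := by
    refine mono_on (f := fun t => qq u v μ x y θ t * ww u v μ x y θ t)
      (f' := fun t => ww u v μ x y θ t * ww u v μ x y θ t + qq u v μ x y θ t *
        (Pr u v x y t ^ 2 * (qq u v μ x y θ t * ((1 + ν) * qq u v μ x y θ t ^ 2 +
          ∑ i, (eta u v θ i t / rho u v x y i t) ^ 2)))) ?_ ?_
    · intro t ht
      exact (h.dq t ht).mul (h.dw hG t ht)
    · intro t ht
      have h1 : qq u v μ x y θ t * (Pr u v x y t ^ 2 * (qq u v μ x y θ t *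
          ((1 + ν) * qq u v μ x y θ t ^ 2 + ∑ i, (eta u v θ i t / rho u v x y i t) ^ 2))) =
          (Pr u v x y t * qq u v μ x y θ t) ^ 2 * ((1 + ν) * qq u v μ x y θ t ^ 2 +
            ∑ i, (eta u v θ i t / rho u v x y i t) ^ 2) := by ring
      rw [h1]
      exact add_nonneg (mul_self_nonneg _) (mul_nonneg (sq_nonneg _) (hS t))
  have hqne : ∀ t ∈ Set.Icc 0 T, qq u v μ x y θ t ≠ 0 := by
    intro t ht h0
    have h1 := hm t ht
    rw [h0, zero_mul] at h1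
    have h2 := mul_pos hq0 hw0
    linarith
  have hc : ContinuousOn (qq u v μ x y θ) (Set.Icc 0 T) := fun t ht =>
    (h.dq t ht).continuousAt.continuousWithinAt
  have hqpos : ∀ t ∈ Set.Icc 0 T, 0 < qq u v μ x y θ t := by
    intro t ht
    by_contra hcon
    have hcon' : qq u v μ x y θ t ≤ 0 := not_lt.mp hcon
    have hc' := hc.mono (Set.Icc_subset_Icc_right ht.2)
    obtain ⟨s, hs, hfs⟩ := intermediate_value_Icc' ht.1 hc'
      (⟨hcon', hq0.le⟩ : (0 : ℝ) ∈ Set.Icc (qq u v μ x y θ t) (qq u v μ x y θ 0))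
    exact hqne s ⟨hs.1, hs.2.trans ht.2⟩ hfs
  intro t ht
  refine ⟨hqpos t ht, ?_⟩
  refine mono_on (h.dw hG) ?_ t ht
  intro s hs
  exact mul_nonneg (sq_nonneg _) (mul_nonneg (hqpos s hs).le (hS s))

/-- The coordinates are bounded. -/
theorem xy_bound (h : Loc u v μ x y θ T) (hν : 0 ≤ ν)
    (hG : ∀ t ∈ Set.Icc 0 T, eval (zz u v x y θ t) (GG n μ ν) = 0)
    (hq0 : 0 < qq u v μ x y θ 0) (hw0 : 0 < ww u v μ x y θ 0) : ∀ t ∈ Set.Icc 0 T,
    |x t| ≤ 2 / qq u v μ x y θ 0 ∧ |y t| ≤ 2 / qq u v μ x y θ 0 := by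
  have hqw := h.q_w hν hG hq0 hw0
  intro t ht
  constructor
  · exact bnd h.dx h.dθ' h.dq (fun t ht => hw0.le.trans (hqw t ht).2) (fun t ht => (hqw t ht).1)
      h.x0 t ht
  · refine bnd (P := Pr u v x y) (θ := fun t => θ t - Real.pi / 2) ?_ ?_ h.dq
      (fun t ht => hw0.le.trans (hqw t ht).2) (fun t ht => (hqw t ht).1) h.y0 t ht
    · intro t ht
      have h1 := h.dy t ht
      have h2 : Real.cos (θ t - Real.pi / 2) = Real.sin (θ t) := Real.cos_sub_pi_div_two _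
      rw [h2]
      exact h1
    · intro t ht
      exact (h.dθ' t ht).sub_const _

end Loc

end PBH54
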