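import Pool.Agent.Lib.MP_8d4425_gt.E54.Tools

set_option autoImplicit false

/-!
# The end game

There is no solution for all times.
-/

namespace PBH54

open Filter Topology

variable {n : ℕ}

/-- The affine functions. -/
def rho (u v : Fin n → ℝ) (x y : ℝ → ℝ) (i : Fin n) (t : ℝ) : ℝ := 1 + u i * x t + v i * y t

/-- Their product. -/
def Pr (u v : Fin n → ℝ) (x y : ℝ → ℝ) (t : ℝ) : ℝ := ∏ i, rho u v x y i t

/-- A solution on `[0, ∞)`. -/
structure Sol (u v : Fin n → ℝ) (μ w0 : ℝ) (x y θ q q' : ℝ → ℝ) : Prop where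
  hμ : 0 < μ
  hw : 0 < w0
  pos : ∀ t, 0 ≤ t → ∀ i, 0 < rho u v x y i t
  dx : ∀ t, 0 ≤ t → HasDerivAt x (Pr u v x y t * Real.cos (θ t)) t
  dy : ∀ t, 0 ≤ t → HasDerivAt y (Pr u v x y t * Real.sin (θ t)) t
  dθ : ∀ t, 0 ≤ t → HasDerivAt θ (-(Pr u v x y t * q t)) t
  q0 : 0 < q 0
  dq : ∀ t, 0 ≤ t → HasDerivAt q (q' t) t
  qw : ∀ t, 0 ≤ t → w0 ≤ q' t
  eq : ∀ t, 0 ≤ t → q t = -(μ * ∑ i, (v i * Real.cos (θ t) - u i * Real.sin (θ t)) /
    rho u v x y i t)

section

variable {u v : Fin n → ℝ} {μ w0 : ℝ} {x y θ q q' : ℝ → ℝ}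

namespace Sol

theorem q_ge (h : Sol u v μ w0 x y θ q q') : ∀ t, 0 ≤ t → q 0 + w0 * t ≤ q t := by
  intro t ht
  have h1 := mono_of (f := fun t => q t - w0 * t) (f' := fun t => q' t - w0) (a := 0)
    (fun r hr => ((h.dq r hr).sub ((hasDerivAt_id r).const_mul w0)).congr_deriv (by simp))
    (fun r hr => by
      have := h.qw r hr
      linarith) 0 t le_rfl ht
  simp only [mul_zero, sub_zero] at h1
  linarith

theorem q_pos (h : Sol u v μ w0 x y θ q q') : ∀ t, 0 ≤ t → 0 < q t := by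
  intro t ht
  have h1 := h.q_ge t ht
  have h2 := h.q0
  have h3 := mul_nonneg h.hw.le ht
  linarith

theorem q_mono (h : Sol u v μ w0 x y θ q q') : ∀ s t, 0 ≤ s → s ≤ t → q s ≤ q t :=
  mono_of h.dq (fun t ht => h.hw.le.trans (h.qw t ht))

theorem q_top (h : Sol u v μ w0 x y θ q q') : Tendsto q atTop atTop := by
  have h1 : Tendsto (fun t => q 0 + w0 * t) atTop atTop :=
    tendsto_atTop_add_const_left _ _ (tendsto_id.const_mul_atTop h.hw)
  refine tendsto_atTop_mono' _ ?_ h1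
  filter_upwards [eventually_ge_atTop 0] with t ht
  exact h.q_ge t ht

theorem P_pos (h : Sol u v μ w0 x y θ q q') : ∀ t, 0 ≤ t → 0 < Pr u v x y t :=
  fun t ht => Finset.prod_pos fun i _ => h.pos t ht i

theorem lim_x (h : Sol u v μ w0 x y θ q q') : ∃ l, Tendsto x atTop (𝓝 l) :=
  conv h.dx h.dθ h.dq (fun t ht => h.hw.le.trans (h.qw t ht)) h.q_pos h.q_top

theorem lim_y (h : Sol u v μ w0 x y θ q q') : ∃ l, Tendsto y atTop (𝓝 l) := by
  refine conv (P := Pr u v x y) (θ := fun t => θ t - Real.pi / 2) (q := q) (q' := q') ?_ ?_ h.dq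
    (fun t ht => h.hw.le.trans (h.qw t ht)) h.q_pos h.q_top
  · intro t ht
    have h1 := h.dy t ht
    have h2 : Real.cos (θ t - Real.pi / 2) = Real.sin (θ t) := Real.cos_sub_pi_div_two _
    rw [h2]
    exact h1
  · intro t ht
    exact (h.dθ t ht).sub_const _

theorem dρ (h : Sol u v μ w0 x y θ q q') (i : Fin n) : ∀ t, 0 ≤ t →
    HasDerivAt (rho u v x y i)
      (Pr u v x y t * (u i * Real.cos (θ t) + v i * Real.sin (θ t))) t := by
  intro t ht
  have h1 := (((h.dx t ht).const_mul (u i)).const_add 1).add ((h.dy t ht).const_mul (v i))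
  refine h1.congr_deriv ?_
  ring

theorem dη (h : Sol u v μ w0 x y θ q q') (i : Fin n) : ∀ t, 0 ≤ t →
    HasDerivAt (fun t => v i * Real.cos (θ t) - u i * Real.sin (θ t))
      (Pr u v x y t * q t * (u i * Real.cos (θ t) + v i * Real.sin (θ t))) t := by
  intro t ht
  have h1 := ((h.dθ t ht).cos.const_mul (v i)).sub ((h.dθ t ht).sin.const_mul (u i))
  refine h1.congr_deriv ?_
  ring

end Sol

/-- A solution together with its limit point. -/
structure SolL (u v : Fin n → ℝ) (μ w0 : ℝ) (x y θ q q' : ℝ → ℝ) (X Y : ℝ) : Prop where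
  s : Sol u v μ w0 x y θ q q'
  lx : Tendsto x atTop (𝓝 X)
  ly : Tendsto y atTop (𝓝 Y)

namespace SolL

variable {X Y : ℝ}

theorem lρ (h : SolL u v μ w0 x y θ q q' X Y) (i : Fin n) :
    Tendsto (rho u v x y i) atTop (𝓝 (1 + u i * X + v i * Y)) :=
  ((h.lx.const_mul (u i)).const_add 1).add (h.ly.const_mul (v i))

theorem ρ0 (h : SolL u v μ w0 x y θ q q' X Y) (i : Fin n) : 0 ≤ 1 + u i * X + v i * Y := by
  refine ge_of_tendsto (h.lρ i) ?_
  filter_upwards [eventually_ge_atTop 0] with t ht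
  exact (h.s.pos t ht i).le

theorem abs_eta (a b φ : ℝ) : |b * Real.cos φ - a * Real.sin φ| ≤ |a| + |b| := by
  have h1 : |b * Real.cos φ| ≤ |b| := by
    rw [abs_mul]
    exact mul_le_of_le_one_right (abs_nonneg _) (Real.abs_cos_le_one _)
  have h2 : |a * Real.sin φ| ≤ |a| := by
    rw [abs_mul]
    exact mul_le_of_le_one_right (abs_nonneg _) (Real.abs_sin_le_one _)
  have h3 := abs_sub (b * Real.cos φ) (a * Real.sin φ)
  linarith

/-- Some affine function vanishes at the limit point. -/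
theorem exV (h : SolL u v μ w0 x y θ q q' X Y) : ∃ i, 1 + u i * X + v i * Y = 0 := by
  by_contra hcon
  push Not at hcon
  have h1 : Tendsto (fun t => μ * ∑ i, (|u i| + |v i|) / rho u v x y i t) atTop
      (𝓝 (μ * ∑ i, (|u i| + |v i|) / (1 + u i * X + v i * Y))) :=
    (tendsto_finsetSum _ fun i _ => tendsto_const_nhds.div (h.lρ i) (hcon i)).const_mul μ
  have h2 : Tendsto (fun t => μ * ∑ i, (|u i| + |v i|) / rho u v x y i t) atTop atTop := by
    refine tendsto_atTop_mono' _ ?_ h.s.q_top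
    filter_upwards [eventually_ge_atTop 0] with t ht
    rw [h.s.eq t ht, ← mul_neg, ← Finset.sum_neg_distrib]
    refine mul_le_mul_of_nonneg_left (Finset.sum_le_sum fun i _ => ?_) h.s.hμ.le
    rw [← neg_div]
    refine div_le_div_of_nonneg_right ?_ (h.s.pos t ht i).le
    exact (neg_le_abs _).trans (abs_eta _ _ _)
  exact not_tendsto_nhds_of_tendsto_atTop h2 _ h1

/-- `θ` does not tend to `-∞`. -/
theorem no_spiral (h : SolL u v μ w0 x y θ q q' X Y) (hθ : Tendsto θ atTop atBot) : False := by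
  obtain ⟨i0, hi0⟩ := h.exV
  have hR : 0 < X ^ 2 + Y ^ 2 := by
    by_contra hcon
    have h1 : X ^ 2 + Y ^ 2 = 0 := le_antisymm (not_lt.mp hcon) (by positivity)
    have h2 : X = 0 := by nlinarith [sq_nonneg X, sq_nonneg Y]
    have h3 : Y = 0 := by nlinarith [sq_nonneg X, sq_nonneg Y]
    rw [h2, h3] at hi0
    norm_num at hi0
  obtain ⟨R, hR0, hR2⟩ : ∃ R : ℝ, 0 < R ∧ R ^ 2 = X ^ 2 + Y ^ 2 :=
    ⟨Real.sqrt (X ^ 2 + Y ^ 2), Real.sqrt_pos.mpr hR, Real.sq_sqrt hR.le⟩
  -- the angle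
  obtain ⟨φ, hc, hs⟩ : ∃ φ : ℝ, Real.cos φ = -Y / R ∧ Real.sin φ = X / R := by
    have hz : ‖(⟨-Y / R, X / R⟩ : ℂ)‖ = 1 := by
      have h1 : ‖(⟨-Y / R, X / R⟩ : ℂ)‖ ^ 2 = 1 := by
        rw [← Complex.normSq_eq_norm_sq, Complex.normSq_apply]
        field_simp
        linarith
      have h2 := norm_nonneg (⟨-Y / R, X / R⟩ : ℂ)
      nlinarith
    have hne : (⟨-Y / R, X / R⟩ : ℂ) ≠ 0 := by
      intro h0
      rw [h0] at hz
      simp at hz
    refine ⟨Complex.arg ⟨-Y / R, X / R⟩, ?_, ?_⟩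
    · rw [Complex.cos_arg hne, hz]
      simp
    · rw [Complex.sin_arg, hz]
      simp
  -- the sum tends to infinity
  have hlow : ∀ i, ∃ C : ℝ, ∀ᶠ t in atTop, -C ≤ (1 - (1 + u i * X + v i * Y)) /
      rho u v x y i t := by
    intro i
    by_cases hi : 1 + u i * X + v i * Y = 0
    · refine ⟨0, ?_⟩
      filter_upwards [eventually_ge_atTop 0] with t ht
      rw [hi, neg_zero]
      exact div_nonneg (by norm_num) (h.s.pos t ht i).le
    · have h1 : Tendsto (fun t => (1 - (1 + u i * X + v i * Y)) / rho u v x y i t) atTop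
          (𝓝 ((1 - (1 + u i * X + v i * Y)) / (1 + u i * X + v i * Y))) :=
        tendsto_const_nhds.div (h.lρ i) hi
      refine ⟨-((1 - (1 + u i * X + v i * Y)) / (1 + u i * X + v i * Y) - 1), ?_⟩
      filter_upwards [h1.eventually (eventually_ge_nhds (b := (1 - (1 + u i * X + v i * Y)) /
        (1 + u i * X + v i * Y) - 1) (by linarith))] with t ht
      rw [neg_neg]
      exact ht
  choose C hC using hlow
  have hinf : Tendsto (fun t => 1 / rho u v x y i0 t) atTop atTop := by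
    have h1 : Tendsto (rho u v x y i0) atTop (𝓝[>] 0) := by
      rw [tendsto_nhdsWithin_iff]
      refine ⟨?_, ?_⟩
      · have := h.lρ i0
        rwa [hi0] at this
      · filter_upwards [eventually_ge_atTop 0] with t ht
        exact h.s.pos t ht i0
    simp only [one_div]
    exact tendsto_inv_nhdsGT_zero.comp h1
  have hpos : ∀ᶠ t in atTop, 0 < ∑ i, (1 - (1 + u i * X + v i * Y)) / rho u v x y i t := by
    have hall : ∀ᶠ t in atTop, ∀ i, -C i ≤ (1 - (1 + u i * X + v i * Y)) /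
      rho u v x y i t := eventually_all.mpr hC
    filter_upwards [hall, hinf.eventually_gt_atTop (∑ i ∈ Finset.univ.erase i0, C i)] with t h1 h2
    rw [← Finset.add_sum_erase _ _ (Finset.mem_univ i0), hi0, sub_zero]
    have h3 : ∑ i ∈ Finset.univ.erase i0, -C i ≤
        ∑ i ∈ Finset.univ.erase i0, (1 - (1 + u i * X + v i * Y)) / rho u v x y i t :=
      Finset.sum_le_sum fun i _ => h1 i
    rw [Finset.sum_neg_distrib] at h3
    linarith
  obtain ⟨t0, ht0⟩ := (hpos.and (eventually_ge_atTop 0)).exists_forall_of_atTop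
  have ht00 : 0 ≤ t0 := (ht0 t0 le_rfl).2
  -- a time with the right direction
  obtain ⟨j, hj⟩ : ∃ j : ℕ, φ - j * (2 * Real.pi) ≤ θ t0 := by
    obtain ⟨j, hj⟩ := exists_nat_ge ((φ - θ t0) / (2 * Real.pi))
    refine ⟨j, ?_⟩
    rw [div_le_iff₀ (by positivity)] at hj
    linarith
  obtain ⟨t1, ht1, ht10⟩ : ∃ t1, θ t1 ≤ φ - j * (2 * Real.pi) ∧ t0 ≤ t1 :=
    ((hθ.eventually_le_atBot (φ - j * (2 * Real.pi))).and (eventually_ge_atTop t0)).exists
  have hcont : ContinuousOn θ (Set.Icc t0 t1) := fun r hr =>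
    (h.s.dθ r (ht00.trans hr.1)).continuousAt.continuousWithinAt
  obtain ⟨t, ht, hθt⟩ := intermediate_value_Icc' ht10 hcont ⟨ht1, hj⟩
  have htp := ht0 t ht.1
  have e1 : Real.cos (θ t) = -Y / R := by
    rw [hθt, Real.cos_sub_nat_mul_two_pi, hc]
  have e2 : Real.sin (θ t) = X / R := by
    rw [hθt, Real.sin_sub_nat_mul_two_pi, hs]
  have e3 := h.s.eq t htp.2
  have e4 : ∑ i, (v i * Real.cos (θ t) - u i * Real.sin (θ t)) / rho u v x y i t =
      (∑ i, (1 - (1 + u i * X + v i * Y)) / rho u v x y i t) / R := by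
    rw [Finset.sum_div]
    refine Finset.sum_congr rfl fun i _ => ?_
    rw [e1, e2]
    have hne := (h.s.pos t htp.2 i).ne'
    field_simp
    ring
  rw [e4] at e3
  have e5 : 0 < μ * ((∑ i, (1 - (1 + u i * X + v i * Y)) / rho u v x y i t) / R) :=
    mul_pos h.s.hμ (div_pos htp.1 hR0)
  have e6 := h.s.q_pos t htp.2
  linarith

end SolL

end

end PBH54
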