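import Pool.Agent.Lib.MP_8d4425_gt.E54.Persist
import Pool.Agent.Lib.MP_8d4425_gt.E54.Glob

set_option autoImplicit false

/-!
# The system of a PNMC immersion (finding 4595, helper48)

`σ' = T`, `T' = g - ⟨g,T⟩ T - (1-μ) ⟨g,N⟩ N`, `N' = - μ ⟨g,N⟩ T`, `g = ∑ c i / (1 + ⟨c i, σ⟩)`, in
the time `t` with `ds = P dt`, `P = ∏ (1 + ⟨c i, σ⟩)`.
-/

namespace PBH54P

open Filter Topology MvPolynomial PBH54

/-- Euclidean space. -/
abbrev E (d : ℕ) : Type := EuclideanSpace ℝ (Fin d)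

/-- Names of the variables: `T`, `N`, `1 / ρ i`. -/
abbrev Ix (d n : ℕ) : Type := Fin d ⊕ (Fin d ⊕ Fin n)

variable {d n : ℕ}

/-! ## The polynomials -/

section Poly

variable (c : Fin n → E d) (cc : Fin n → Fin n → E d) (μ ν : ℝ)

noncomputable def Tp (d n : ℕ) (a : Fin d) : MvPolynomial (Ix d n) ℝ := X (Sum.inl a)

noncomputable def Np (d n : ℕ) (a : Fin d) : MvPolynomial (Ix d n) ℝ := X (Sum.inr (Sum.inl a))

noncomputable def Rp (d n : ℕ) (i : Fin n) : MvPolynomial (Ix d n) ℝ := X (Sum.inr (Sum.inr i))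

noncomputable def ipT (n : ℕ) (v : E d) : MvPolynomial (Ix d n) ℝ := ∑ a, C (v a) * Tp d n a

noncomputable def ipN (n : ℕ) (v : E d) : MvPolynomial (Ix d n) ℝ := ∑ a, C (v a) * Np d n a

noncomputable def gTp : MvPolynomial (Ix d n) ℝ := ∑ i, Rp d n i * ipT n (c i)

noncomputable def gNp : MvPolynomial (Ix d n) ℝ := ∑ i, Rp d n i * ipN n (c i)

noncomputable def VP : Ix d n → MvPolynomial (Ix d n) ℝ :=
  Sum.elim (fun a => (∑ i, Rp d n i * C (c i a)) - gTp c * Tp d n a -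
      C (1 - μ) * gNp c * Np d n a)
    (Sum.elim (fun a => -(C μ * gNp c * Tp d n a)) (fun i => -(Rp d n i ^ 2 * ipT n (c i))))

noncomputable def kP : MvPolynomial (Ix d n) ℝ := C μ * gNp c

noncomputable def k1P : MvPolynomial (Ix d n) ℝ := mkDerivation ℝ (VP c μ) (kP c μ)

noncomputable def QP : MvPolynomial (Ix d n) ℝ :=
  ∑ i, ∑ j, ipN n (cc i j) ^ 2 * (Rp d n i * Rp d n j)

noncomputable def GP : MvPolynomial (Ix d n) ℝ :=
  mkDerivation ℝ (VP c μ) (k1P c μ) - (kP c μ * (C (1 + ν) * kP c μ ^ 2 + QP cc) -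
    gTp c * k1P c μ)

end Poly

/-! ## The curve -/

section Curve

variable (c : Fin n → E d) (cc : Fin n → Fin n → E d) (μ : ℝ) (σ T N : ℝ → E d)

/-- The affine functions. -/
noncomputable def ro (i : Fin n) (t : ℝ) : ℝ := 1 + inner ℝ (c i) (σ t)

/-- Their product. -/
noncomputable def Pd (t : ℝ) : ℝ := ∏ i, ro c σ i t

/-- `P g`. -/
noncomputable def Gd (t : ℝ) : E d := ∑ i, (∏ j ∈ Finset.univ.erase i, ro c σ j t) • c i

/-- `g`. -/
noncomputable def gd (t : ℝ) : E d := ∑ i, (ro c σ i t)⁻¹ • c i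

/-- The point of the phase space. -/
noncomputable def zP (t : ℝ) : Ix d n → ℝ :=
  Sum.elim (fun a => T t a) (Sum.elim (fun a => N t a) (fun i => (ro c σ i t)⁻¹))

/-- `∑ ⟨c i j, N⟩ ^ 2 / (ρ i ρ j)`. -/
noncomputable def Qd (t : ℝ) : ℝ :=
  ∑ i, ∑ j, (inner ℝ (cc i j) (N t) : ℝ) ^ 2 * ((ro c σ i t)⁻¹ * (ro c σ j t)⁻¹)

/-- `q = - κ`. -/
noncomputable def qP (t : ℝ) : ℝ := -(μ * inner ℝ (gd c σ t) (N t))

/-- The derivative of `q`. -/
noncomputable def wP (t : ℝ) : ℝ := -(Pd c σ t * eval (zP c σ T N t) (k1P c μ))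

theorem eval_ipT (v : E d) (t : ℝ) :
    eval (zP c σ T N t) (ipT n v) = inner ℝ v (T t) := by
  unfold ipT Tp zP
  simp only [map_sum, map_mul, eval_C, eval_X, Sum.elim_inl, PiLp.inner_apply]
  refine Finset.sum_congr rfl fun a _ => ?_
  simp [mul_comm]

theorem eval_ipN (v : E d) (t : ℝ) :
    eval (zP c σ T N t) (ipN n v) = inner ℝ v (N t) := by
  unfold ipN Np zP
  simp only [map_sum, map_mul, eval_C, eval_X, Sum.elim_inl, Sum.elim_inr, PiLp.inner_apply]
  refine Finset.sum_congr rfl fun a _ => ?_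
  simp [mul_comm]

theorem eval_Rp (i : Fin n) (t : ℝ) : eval (zP c σ T N t) (Rp d n i) = (ro c σ i t)⁻¹ := by
  unfold Rp zP
  simp only [eval_X, Sum.elim_inr]

theorem eval_gTp (t : ℝ) : eval (zP c σ T N t) (gTp c) = inner ℝ (gd c σ t) (T t) := by
  unfold gTp gd
  simp only [map_sum, map_mul, eval_Rp, eval_ipT, sum_inner, inner_smul_left]
  simp

theorem eval_gNp (t : ℝ) : eval (zP c σ T N t) (gNp c) = inner ℝ (gd c σ t) (N t) := by
  unfold gNp gd
  simp only [map_sum, map_mul, eval_Rp, eval_ipN, sum_inner, inner_smul_left]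
  simp

theorem eval_kP (t : ℝ) : eval (zP c σ T N t) (kP c μ) = -qP c μ σ N t := by
  unfold kP qP
  rw [map_mul, eval_C, eval_gNp, neg_neg]

theorem eval_QP (t : ℝ) : eval (zP c σ T N t) (QP cc) = Qd c cc σ N t := by
  unfold QP Qd
  simp only [map_sum, map_mul, map_pow, eval_Rp, eval_ipN]

/-- A solution in the time `t` on `[0, τ]`. -/
structure PRun (τ : ℝ) : Prop where
  dσ : ∀ t ∈ Set.Icc 0 τ, HasDerivAt σ (Pd c σ t • T t) t
  dT : ∀ t ∈ Set.Icc 0 τ, HasDerivAt T (Gd c σ t - (inner ℝ (Gd c σ t) (T t) : ℝ) • T t -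
    ((1 - μ) * inner ℝ (Gd c σ t) (N t)) • N t) t
  dN : ∀ t ∈ Set.Icc 0 τ, HasDerivAt N (-((μ * inner ℝ (Gd c σ t) (N t)) • T t)) t
  σ0 : σ 0 = 0

end Curve

namespace PRun

variable {c : Fin n → E d} {cc : Fin n → Fin n → E d} {μ ν τ : ℝ} {σ T N : ℝ → E d}

theorem dρ (h : PRun c μ σ T N τ) (i : Fin n) : ∀ t ∈ Set.Icc 0 τ,
    HasDerivAt (ro c σ i) (Pd c σ t * inner ℝ (c i) (T t)) t := by
  intro t ht
  have h1 := ((hasDerivAt_const t (c i)).inner ℝ (h.dσ t ht)).const_add 1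
  refine h1.congr_deriv ?_
  rw [inner_zero_left, add_zero, inner_smul_right]

theorem cρ (h : PRun c μ σ T N τ) (i : Fin n) : ContinuousOn (ro c σ i) (Set.Icc 0 τ) :=
  fun t ht => (h.dρ i t ht).continuousAt.continuousWithinAt

theorem cT (h : PRun c μ σ T N τ) : ContinuousOn T (Set.Icc 0 τ) :=
  fun t ht => (h.dT t ht).continuousAt.continuousWithinAt

theorem cP (h : PRun c μ σ T N τ) : ContinuousOn (Pd c σ) (Set.Icc 0 τ) :=
  continuousOn_finsetProd _ fun i _ => h.cρ i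

theorem P_split (c : Fin n → E d) (σ : ℝ → E d) (i : Fin n) (t : ℝ) : Pd c σ t =
    ro c σ i t * ∏ j ∈ Finset.univ.erase i, ro c σ j t :=
  (Finset.mul_prod_erase _ (fun j => ro c σ j t) (Finset.mem_univ i)).symm

theorem ρpos (h : PRun c μ σ T N τ) (i : Fin n) : ∀ t ∈ Set.Icc 0 τ, 0 < ro c σ i t := by
  refine pos_of_lin (g := fun t => (∏ j ∈ Finset.univ.erase i, ro c σ j t) *
    inner ℝ (c i) (T t)) ?_ ?_ ?_
  · intro t ht
    refine (h.dρ i t ht).congr_deriv ?_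
    rw [P_split c σ i t]
    ring
  · exact (continuousOn_finsetProd _ fun j _ => h.cρ j).mul (continuousOn_const.inner h.cT)
  · unfold ro
    rw [h.σ0, inner_zero_right]
    norm_num

theorem Ppos (h : PRun c μ σ T N τ) : ∀ t ∈ Set.Icc 0 τ, 0 < Pd c σ t :=
  fun t ht => Finset.prod_pos fun i _ => h.ρpos i t ht

theorem Gd_eq (h : PRun c μ σ T N τ) : ∀ t ∈ Set.Icc 0 τ, Gd c σ t = Pd c σ t • gd c σ t := by
  intro t ht
  unfold Gd gd
  rw [Finset.smul_sum]
  refine Finset.sum_congr rfl fun i _ => ?_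
  rw [smul_smul, P_split c σ i t, mul_comm (ro c σ i t), mul_assoc,
    mul_inv_cancel₀ (h.ρpos i t ht).ne', mul_one]

theorem dT' (h : PRun c μ σ T N τ) : ∀ t ∈ Set.Icc 0 τ, HasDerivAt T
    (Pd c σ t • (gd c σ t - (inner ℝ (gd c σ t) (T t) : ℝ) • T t -
      ((1 - μ) * inner ℝ (gd c σ t) (N t)) • N t)) t := by
  intro t ht
  refine (h.dT t ht).congr_deriv ?_
  rw [h.Gd_eq t ht]
  simp only [real_inner_smul_left]
  rw [smul_sub, smul_sub, smul_smul, smul_smul]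
  have e : (1 - μ) * (Pd c σ t * inner ℝ (gd c σ t) (N t)) =
      Pd c σ t * ((1 - μ) * inner ℝ (gd c σ t) (N t)) := by ring
  rw [e]

theorem dN' (h : PRun c μ σ T N τ) : ∀ t ∈ Set.Icc 0 τ, HasDerivAt N
    ((Pd c σ t * qP c μ σ N t) • T t) t := by
  intro t ht
  refine (h.dN t ht).congr_deriv ?_
  rw [h.Gd_eq t ht, inner_smul_left]
  unfold qP
  simp only [conj_trivial]
  rw [← neg_smul]
  congr 1
  ring

/-- The phase space equation. -/
theorem dz (h : PRun c μ σ T N τ) : ∀ t ∈ Set.Icc 0 τ, ∀ i,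
    HasDerivAt (fun t => zP c σ T N t i)
      (Pd c σ t * eval (zP c σ T N t) (VP c μ i)) t := by
  intro t ht i
  rcases i with a | a | i
  · have h1 := (EuclideanSpace.proj a : E d →L[ℝ] ℝ).hasFDerivAt.comp_hasDerivAt
      t (h.dT' t ht)
    refine h1.congr_deriv ?_
    simp only [VP, Sum.elim_inl, map_sub, map_mul, eval_C, eval_gTp, eval_gNp, map_sum, eval_Rp]
    change (Pd c σ t • (gd c σ t - (inner ℝ (gd c σ t) (T t) : ℝ) • T t -
      ((1 - μ) * inner ℝ (gd c σ t) (N t)) • N t)) a = _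
    simp only [PiLp.smul_apply, PiLp.sub_apply, smul_eq_mul]
    have e1 : eval (zP c σ T N t) (Tp d n a) = T t a := by
      unfold Tp zP
      simp only [eval_X, Sum.elim_inl]
    have e2 : eval (zP c σ T N t) (Np d n a) = N t a := by
      unfold Np zP
      simp only [eval_X, Sum.elim_inl, Sum.elim_inr]
    have e3 : (gd c σ t) a = ∑ i, (ro c σ i t)⁻¹ * c i a := by
      unfold gd
      simp
    rw [e1, e2, e3]
  · have h1 := (EuclideanSpace.proj a : E d →L[ℝ] ℝ).hasFDerivAt.comp_hasDerivAt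
      t (h.dN' t ht)
    refine h1.congr_deriv ?_
    simp only [VP, Sum.elim_inr, Sum.elim_inl, map_neg, map_mul, eval_C, eval_gNp]
    change ((Pd c σ t * qP c μ σ N t) • T t) a = _
    simp only [PiLp.smul_apply, smul_eq_mul]
    have e1 : eval (zP c σ T N t) (Tp d n a) = T t a := by
      unfold Tp zP
      simp only [eval_X, Sum.elim_inl]
    rw [e1]
    unfold qP
    ring
  · have h1 := (h.dρ i t ht).inv (h.ρpos i t ht).ne'
    refine h1.congr_deriv ?_
    simp only [VP, Sum.elim_inr, map_neg, map_mul, map_pow, eval_ipT, eval_Rp]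
    rw [div_eq_mul_inv, ← inv_pow]
    ring

theorem dq (h : PRun c μ σ T N τ) : ∀ t ∈ Set.Icc 0 τ,
    HasDerivAt (qP c μ σ N) (wP c μ σ T N t) t := by
  intro t ht
  have h1 := (hasDerivAt_eval (VP c μ) (zP c σ T N) (Pd c σ t) t (h.dz t ht) (kP c μ)).neg
  have h2 : (fun t => -eval (zP c σ T N t) (kP c μ)) = qP c μ σ N := by
    funext s
    rw [eval_kP, neg_neg]
  have h3 : (-fun t => eval (zP c σ T N t) (kP c μ)) = qP c μ σ N := h2
  rw [h3] at h1
  exact h1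

theorem dP (h : PRun c μ σ T N τ) : ∀ t ∈ Set.Icc 0 τ,
    HasDerivAt (Pd c σ) (Pd c σ t ^ 2 * inner ℝ (gd c σ t) (T t)) t := by
  intro t ht
  have h1 : HasDerivAt (Pd c σ) (∑ i, (∏ j ∈ Finset.univ.erase i, ro c σ j t) •
      (Pd c σ t * inner ℝ (c i) (T t))) t :=
    HasDerivAt.fun_finsetProd fun i _ => h.dρ i t ht
  refine h1.congr_deriv ?_
  unfold gd
  rw [sum_inner, Finset.mul_sum]
  refine Finset.sum_congr rfl fun i _ => ?_
  have hne := (h.ρpos i t ht).ne'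
  rw [smul_eq_mul, inner_smul_left]
  have h3 : ∏ j ∈ Finset.univ.erase i, ro c σ j t = Pd c σ t * (ro c σ i t)⁻¹ := by
    rw [P_split c σ i t]
    field_simp
  rw [h3]
  simp only [conj_trivial]
  ring

/-- The second derivative of `q`. -/
theorem dw (h : PRun c μ σ T N τ)
    (hG : ∀ t ∈ Set.Icc 0 τ, eval (zP c σ T N t) (GP c cc μ ν) = 0) : ∀ t ∈ Set.Icc 0 τ,
    HasDerivAt (wP c μ σ T N) (Pd c σ t ^ 2 * (qP c μ σ N t *
      ((1 + ν) * qP c μ σ N t ^ 2 + Qd c cc σ N t))) t := by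
  intro t ht
  have h1 := hasDerivAt_eval (VP c μ) (zP c σ T N) (Pd c σ t) t (h.dz t ht) (k1P c μ)
  have h2 := ((h.dP t ht).mul h1).neg
  refine h2.congr_deriv ?_
  have h3 := hG t ht
  unfold GP at h3
  simp only [map_sub, map_mul, map_add, eval_C, map_pow, eval_kP, eval_QP, eval_gTp] at h3
  linear_combination (-(Pd c σ t ^ 2)) * h3

end PRun

end PBH54P
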