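import Pool.Agent.Lib.MP_8d4425_gt.E54.PApri
import Pool.Agent.Lib.MP_8d4425_gt.E54.Bounds

set_option autoImplicit false

/-!
# The PNMC system: unit vectors, a priori bounds
-/

namespace PBH54P

open Filter Topology MvPolynomial PBH54

variable {d n : ℕ} {c : Fin n → E d} {cc : Fin n → Fin n → E d} {μ ν τ : ℝ} {σ T N : ℝ → E d}

private theorem ax_bound (a b α β γ μ : ℝ) (h0 : 0 ≤ μ) (h1 : μ ≤ 1) :
    |2 * (α * (-(2 * a * α) - 2 * (1 - μ) * b * β) + β * (-(μ * b * α) - a * β -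
      (1 - μ) * b * γ) + γ * (-(2 * μ * b * β)))| ≤
      (6 * |a| + 12 * |b|) * (α ^ 2 + β ^ 2 + γ ^ 2) := by
  have e1 : |α * β| ≤ α ^ 2 + β ^ 2 + γ ^ 2 := by
    rw [abs_le]
    constructor <;> nlinarith [sq_nonneg (α + β), sq_nonneg (α - β), sq_nonneg γ]
  have e2 : |β * γ| ≤ α ^ 2 + β ^ 2 + γ ^ 2 := by
    rw [abs_le]
    constructor <;> nlinarith [sq_nonneg (β + γ), sq_nonneg (β - γ), sq_nonneg α]
  have hS : 0 ≤ α ^ 2 + β ^ 2 + γ ^ 2 := by positivity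
  have e3 : α ^ 2 ≤ α ^ 2 + β ^ 2 + γ ^ 2 := by nlinarith [sq_nonneg β, sq_nonneg γ]
  have e4 : β ^ 2 ≤ α ^ 2 + β ^ 2 + γ ^ 2 := by nlinarith [sq_nonneg α, sq_nonneg γ]
  have key : 2 * (α * (-(2 * a * α) - 2 * (1 - μ) * b * β) + β * (-(μ * b * α) - a * β -
      (1 - μ) * b * γ) + γ * (-(2 * μ * b * β))) =
      (-(4 * a)) * α ^ 2 + (-(2 * a)) * β ^ 2 + (-(b * (4 * (1 - μ) + 2 * μ))) * (α * β) +
      (-(b * (2 * (1 - μ) + 4 * μ))) * (β * γ) := by ring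
  rw [key]
  have t1 : |(-(4 * a)) * α ^ 2| ≤ 4 * |a| * (α ^ 2 + β ^ 2 + γ ^ 2) := by
    rw [abs_mul, abs_neg, abs_mul, abs_of_pos (by norm_num : (0 : ℝ) < 4), abs_of_nonneg (sq_nonneg α)]
    exact mul_le_mul_of_nonneg_left e3 (by positivity)
  have t2 : |(-(2 * a)) * β ^ 2| ≤ 2 * |a| * (α ^ 2 + β ^ 2 + γ ^ 2) := by
    rw [abs_mul, abs_neg, abs_mul, abs_of_pos (by norm_num : (0 : ℝ) < 2), abs_of_nonneg (sq_nonneg β)]
    exact mul_le_mul_of_nonneg_left e4 (by positivity)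
  have t3 : |(-(b * (4 * (1 - μ) + 2 * μ))) * (α * β)| ≤ 6 * |b| * (α ^ 2 + β ^ 2 + γ ^ 2) := by
    rw [abs_mul, abs_neg, abs_mul]
    have h2 : |4 * (1 - μ) + 2 * μ| ≤ 6 := by
      rw [abs_le]
      constructor <;> linarith
    have h3 : |b| * |4 * (1 - μ) + 2 * μ| ≤ 6 * |b| := by
      have := mul_le_mul_of_nonneg_left h2 (abs_nonneg b)
      linarith
    exact mul_le_mul h3 e1 (abs_nonneg _) (by positivity)
  have t4 : |(-(b * (2 * (1 - μ) + 4 * μ))) * (β * γ)| ≤ 6 * |b| * (α ^ 2 + β ^ 2 + γ ^ 2) := by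
    rw [abs_mul, abs_neg, abs_mul]
    have h2 : |2 * (1 - μ) + 4 * μ| ≤ 6 := by
      rw [abs_le]
      constructor <;> linarith
    have h3 : |b| * |2 * (1 - μ) + 4 * μ| ≤ 6 * |b| := by
      have := mul_le_mul_of_nonneg_left h2 (abs_nonneg b)
      linarith
    exact mul_le_mul h3 e2 (abs_nonneg _) (by positivity)
  have s1 := abs_add_le ((-(4 * a)) * α ^ 2 + (-(2 * a)) * β ^ 2 +
    (-(b * (4 * (1 - μ) + 2 * μ))) * (α * β)) ((-(b * (2 * (1 - μ) + 4 * μ))) * (β * γ))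
  have s2 := abs_add_le ((-(4 * a)) * α ^ 2 + (-(2 * a)) * β ^ 2)
    ((-(b * (4 * (1 - μ) + 2 * μ))) * (α * β))
  have s3 := abs_add_le ((-(4 * a)) * α ^ 2) ((-(2 * a)) * β ^ 2)
  linarith

namespace PRun

theorem cN (h : PRun c μ σ T N τ) : ContinuousOn N (Set.Icc 0 τ) :=
  fun t ht => (h.dN t ht).continuousAt.continuousWithinAt

theorem cG (h : PRun c μ σ T N τ) : ContinuousOn (Gd c σ) (Set.Icc 0 τ) := by
  unfold Gd
  refine continuousOn_finsetSum _ fun i _ => ?_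
  exact (continuousOn_finsetProd _ fun j _ => h.cρ j).smul continuousOn_const

/-- `T` and `N` stay orthonormal. -/
theorem unit (h : PRun c μ σ T N τ) (h0 : 0 ≤ μ) (h1 : μ ≤ 1) (hT : ‖T 0‖ = 1)
    (hN : ‖N 0‖ = 1) (hTN : inner ℝ (T 0) (N 0) = (0 : ℝ)) : ∀ t ∈ Set.Icc 0 τ,
    ‖T t‖ = 1 ∧ ‖N t‖ = 1 ∧ inner ℝ (T t) (N t) = (0 : ℝ) := by
  let α : ℝ → ℝ := fun t => inner ℝ (T t) (T t) - 1
  let β : ℝ → ℝ := fun t => inner ℝ (T t) (N t)
  let γ : ℝ → ℝ := fun t => inner ℝ (N t) (N t) - 1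
  let a : ℝ → ℝ := fun t => inner ℝ (Gd c σ t) (T t)
  let b : ℝ → ℝ := fun t => inner ℝ (Gd c σ t) (N t)
  have dα : ∀ t ∈ Set.Icc 0 τ, HasDerivAt α (-(2 * a t * α t) - 2 * (1 - μ) * b t * β t) t := by
    intro t ht
    have h2 := ((h.dT t ht).inner ℝ (h.dT t ht)).sub_const 1
    refine h2.congr_deriv ?_
    simp only [inner_sub_left, inner_sub_right, real_inner_smul_left, real_inner_smul_right]
    have e1 : inner ℝ (T t) (T t) = α t + 1 := by simp only [α]; ring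
    have e2 : inner ℝ (T t) (Gd c σ t) = a t := real_inner_comm _ _
    have e3 : inner ℝ (Gd c σ t) (T t) = a t := rfl
    have e4 : inner ℝ (Gd c σ t) (N t) = b t := rfl
    have e5 : inner ℝ (T t) (N t) = β t := rfl
    have e6 : inner ℝ (N t) (T t) = β t := real_inner_comm _ _
    rw [e1, e2, e3, e4, e5, e6]
    ring
  have dβ : ∀ t ∈ Set.Icc 0 τ, HasDerivAt β (-(μ * b t * α t) - a t * β t -
      (1 - μ) * b t * γ t) t := by
    intro t ht
    have h2 := (h.dT t ht).inner ℝ (h.dN t ht)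
    refine h2.congr_deriv ?_
    simp only [inner_sub_left, inner_neg_right, real_inner_smul_left, real_inner_smul_right]
    have e1 : inner ℝ (T t) (T t) = α t + 1 := by simp only [α]; ring
    have e3 : inner ℝ (Gd c σ t) (T t) = a t := rfl
    have e4 : inner ℝ (Gd c σ t) (N t) = b t := rfl
    have e5 : inner ℝ (T t) (N t) = β t := rfl
    have e6 : inner ℝ (N t) (N t) = γ t + 1 := by simp only [γ]; ring
    rw [e1, e3, e4, e5, e6]
    ring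
  have dγ : ∀ t ∈ Set.Icc 0 τ, HasDerivAt γ (-(2 * μ * b t * β t)) t := by
    intro t ht
    have h2 := ((h.dN t ht).inner ℝ (h.dN t ht)).sub_const 1
    refine h2.congr_deriv ?_
    simp only [inner_neg_right, inner_neg_left, real_inner_smul_left, real_inner_smul_right]
    have e4 : inner ℝ (Gd c σ t) (N t) = b t := rfl
    have e5 : inner ℝ (T t) (N t) = β t := rfl
    have e6 : inner ℝ (N t) (T t) = β t := real_inner_comm _ _
    rw [e4, e5, e6]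
    ring
  have ca : ContinuousOn a (Set.Icc 0 τ) := h.cG.inner h.cT
  have cb : ContinuousOn b (Set.Icc 0 τ) := h.cG.inner h.cN
  obtain ⟨A, hA⟩ := isCompact_Icc.exists_bound_of_continuousOn ca
  obtain ⟨B, hB⟩ := isCompact_Icc.exists_bound_of_continuousOn cb
  have hz : ∀ t ∈ Set.Icc 0 τ, α t ^ 2 + β t ^ 2 + γ t ^ 2 = 0 := by
    have dF : ∀ t ∈ Set.Icc 0 τ, HasDerivAt (fun t => α t ^ 2 + β t ^ 2 + γ t ^ 2)
        (2 * (α t * (-(2 * a t * α t) - 2 * (1 - μ) * b t * β t) + β t * (-(μ * b t * α t) -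
          a t * β t - (1 - μ) * b t * γ t) + γ t * (-(2 * μ * b t * β t)))) t := by
      intro t ht
      refine ((((dα t ht).pow 2).add ((dβ t ht).pow 2)).add ((dγ t ht).pow 2)).congr_deriv ?_
      simp only [Nat.cast_ofNat]
      ring
    refine eq_zero_of_abs_deriv_le_mul_abs_self_of_eq_zero_right
      (f' := fun t => 2 * (α t * (-(2 * a t * α t) - 2 * (1 - μ) * b t * β t) +
        β t * (-(μ * b t * α t) - a t * β t - (1 - μ) * b t * γ t) + γ t *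
          (-(2 * μ * b t * β t)))) (K := 6 * A + 12 * B) ?_ ?_ ?_ ?_
    · intro t ht
      exact (dF t ht).continuousAt.continuousWithinAt
    · intro t ht
      exact (dF t ⟨ht.1, ht.2.le⟩).hasDerivWithinAt
    · have e1 : α 0 = 0 := by
        change inner ℝ (T 0) (T 0) - 1 = (0 : ℝ)
        rw [real_inner_self_eq_norm_sq, hT]
        norm_num
      have e2 : β 0 = 0 := hTN
      have e3 : γ 0 = 0 := by
        change inner ℝ (N 0) (N 0) - 1 = (0 : ℝ)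
        rw [real_inner_self_eq_norm_sq, hN]
        norm_num
      rw [e1, e2, e3]
      norm_num
    · intro t ht
      have ht' : t ∈ Set.Icc 0 τ := ⟨ht.1, ht.2.le⟩
      have h2 := ax_bound (a t) (b t) (α t) (β t) (γ t) μ h0 h1
      have hS : 0 ≤ α t ^ 2 + β t ^ 2 + γ t ^ 2 := by positivity
      rw [Real.norm_eq_abs, Real.norm_eq_abs, abs_of_nonneg hS]
      refine h2.trans (mul_le_mul_of_nonneg_right ?_ hS)
      have h3 : |a t| ≤ A := hA t ht'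
      have h4 : |b t| ≤ B := hB t ht'
      linarith
  intro t ht
  have hF := hz t ht
  have eα : α t = 0 := by nlinarith [sq_nonneg (α t), sq_nonneg (β t), sq_nonneg (γ t)]
  have eβ : β t = 0 := by nlinarith [sq_nonneg (α t), sq_nonneg (β t), sq_nonneg (γ t)]
  have eγ : γ t = 0 := by nlinarith [sq_nonneg (α t), sq_nonneg (β t), sq_nonneg (γ t)]
  refine ⟨?_, ?_, eβ⟩
  · have h5 : ‖T t‖ ^ 2 = 1 := by
      rw [← real_inner_self_eq_norm_sq]
      change inner ℝ (T t) (T t) - 1 = (0 : ℝ) at eα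
      linarith
    have h6 := norm_nonneg (T t)
    nlinarith
  · have h5 : ‖N t‖ ^ 2 = 1 := by
      rw [← real_inner_self_eq_norm_sq]
      change inner ℝ (N t) (N t) - 1 = (0 : ℝ) at eγ
      linarith
    have h6 := norm_nonneg (N t)
    nlinarith

theorem Q_nonneg (h : PRun c μ σ T N τ) : ∀ t ∈ Set.Icc 0 τ, 0 ≤ Qd c cc σ N t := by
  intro t ht
  unfold Qd
  refine Finset.sum_nonneg fun i _ => Finset.sum_nonneg fun j _ => ?_
  exact mul_nonneg (sq_nonneg _) (mul_nonneg (inv_nonneg.mpr (h.ρpos i t ht).le)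
    (inv_nonneg.mpr (h.ρpos j t ht).le))

/-- `q` stays positive and `q'` increases. -/
theorem q_w (h : PRun c μ σ T N τ) (hν : 0 ≤ ν)
    (hG : ∀ t ∈ Set.Icc 0 τ, eval (zP c σ T N t) (GP c cc μ ν) = 0)
    (hq0 : 0 < qP c μ σ N 0) (hw0 : 0 < wP c μ σ T N 0) : ∀ t ∈ Set.Icc 0 τ,
    0 < qP c μ σ N t ∧ wP c μ σ T N 0 ≤ wP c μ σ T N t := by
  have hS : ∀ t ∈ Set.Icc 0 τ, 0 ≤ (1 + ν) * qP c μ σ N t ^ 2 + Qd c cc σ N t := fun t ht =>
    add_nonneg (mul_nonneg (by linarith) (sq_nonneg _)) (h.Q_nonneg t ht)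
  have hm : ∀ t ∈ Set.Icc 0 τ, qP c μ σ N 0 * wP c μ σ T N 0 ≤
      qP c μ σ N t * wP c μ σ T N t := by
    refine mono_on (f := fun t => qP c μ σ N t * wP c μ σ T N t)
      (f' := fun t => wP c μ σ T N t * wP c μ σ T N t + qP c μ σ N t *
        (Pd c σ t ^ 2 * (qP c μ σ N t * ((1 + ν) * qP c μ σ N t ^ 2 + Qd c cc σ N t)))) ?_ ?_
    · intro t ht
      exact (h.dq t ht).mul (h.dw hG t ht)
    · intro t ht
      have h1 : qP c μ σ N t * (Pd c σ t ^ 2 * (qP c μ σ N t *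
          ((1 + ν) * qP c μ σ N t ^ 2 + Qd c cc σ N t))) =
          (Pd c σ t * qP c μ σ N t) ^ 2 * ((1 + ν) * qP c μ σ N t ^ 2 + Qd c cc σ N t) := by ring
      rw [h1]
      exact add_nonneg (mul_self_nonneg _) (mul_nonneg (sq_nonneg _) (hS t ht))
  have hqne : ∀ t ∈ Set.Icc 0 τ, qP c μ σ N t ≠ 0 := by
    intro t ht h0
    have h1 := hm t ht
    rw [h0, zero_mul] at h1
    have h2 := mul_pos hq0 hw0
    linarith
  have hc : ContinuousOn (qP c μ σ N) (Set.Icc 0 τ) := fun t ht =>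
    (h.dq t ht).continuousAt.continuousWithinAt
  have hqpos : ∀ t ∈ Set.Icc 0 τ, 0 < qP c μ σ N t := by
    intro t ht
    by_contra hcon
    have hcon' : qP c μ σ N t ≤ 0 := not_lt.mp hcon
    have hc' := hc.mono (Set.Icc_subset_Icc_right ht.2)
    obtain ⟨s, hs, hfs⟩ := intermediate_value_Icc' ht.1 hc'
      (⟨hcon', hq0.le⟩ : (0 : ℝ) ∈ Set.Icc (qP c μ σ N t) (qP c μ σ N 0))
    exact hqne s ⟨hs.1, hs.2.trans ht.2⟩ hfs
  intro t ht
  refine ⟨hqpos t ht, ?_⟩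
  refine mono_on (h.dw hG) ?_ t ht
  intro s hs
  exact mul_nonneg (sq_nonneg _) (mul_nonneg (hqpos s hs).le (hS s hs))

/-- The curve stays in a ball. -/
theorem σ_bound (h : PRun c μ σ T N τ) (hN : ∀ t ∈ Set.Icc 0 τ, ‖N t‖ = 1)
    (hq : ∀ t ∈ Set.Icc 0 τ, 0 < qP c μ σ N t)
    (hw : ∀ t ∈ Set.Icc 0 τ, 0 ≤ wP c μ σ T N t) : ∀ t ∈ Set.Icc 0 τ,
    ‖σ t‖ ≤ 2 / qP c μ σ N 0 := by
  intro t ht
  have hT0 : (0 : ℝ) ∈ Set.Icc 0 τ := ⟨le_rfl, ht.1.trans ht.2⟩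
  have hd : ∀ r ∈ Set.Icc 0 τ, HasDerivAt
      (fun t => (σ t - (qP c μ σ N t)⁻¹ • N t) + (qP c μ σ N 0)⁻¹ • N 0)
      ((wP c μ σ T N r / qP c μ σ N r ^ 2) • N r) r := by
    intro r hr
    have hne := (hq r hr).ne'
    have h1 := ((h.dσ r hr).sub (((h.dq r hr).inv hne).smul (h.dN' r hr))).add_const
      ((qP c μ σ N 0)⁻¹ • N 0)
    refine h1.congr_deriv ?_
    rw [smul_smul, Pi.inv_apply]
    have h2 : (qP c μ σ N r)⁻¹ * (Pd c σ r * qP c μ σ N r) = Pd c σ r := by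
      field_simp
    rw [h2, neg_div, neg_smul]
    abel
  have hb : ∀ r ∈ Set.Icc 0 τ, HasDerivAt (fun t => (qP c μ σ N 0)⁻¹ - (qP c μ σ N t)⁻¹)
      (wP c μ σ T N r / qP c μ σ N r ^ 2) r := by
    intro r hr
    have h1 := ((h.dq r hr).inv (hq r hr).ne').const_sub (qP c μ σ N 0)⁻¹
    refine h1.congr_deriv ?_
    ring
  have hC : ‖(σ t - (qP c μ σ N t)⁻¹ • N t) + (qP c μ σ N 0)⁻¹ • N 0‖ ≤
      (qP c μ σ N 0)⁻¹ - (qP c μ σ N t)⁻¹ := by
    refine image_norm_le_of_norm_deriv_right_le_deriv_boundary'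
      (f := fun t => (σ t - (qP c μ σ N t)⁻¹ • N t) + (qP c μ σ N 0)⁻¹ • N 0)
      (f' := fun r => (wP c μ σ T N r / qP c μ σ N r ^ 2) • N r)
      (B := fun t => (qP c μ σ N 0)⁻¹ - (qP c μ σ N t)⁻¹)
      (B' := fun r => wP c μ σ T N r / qP c μ σ N r ^ 2) (a := 0) (b := τ) ?_ ?_ ?_ ?_ ?_ ?_ ht
    · intro r hr
      exact (hd r hr).continuousAt.continuousWithinAt
    · intro r hr
      exact (hd r ⟨hr.1, hr.2.le⟩).hasDerivWithinAt
    · rw [h.σ0]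
      simp
    · intro r hr
      exact (hb r hr).continuousAt.continuousWithinAt
    · intro r hr
      exact (hb r ⟨hr.1, hr.2.le⟩).hasDerivWithinAt
    · intro r hr
      have hr' : r ∈ Set.Icc 0 τ := ⟨hr.1, hr.2.le⟩
      rw [norm_smul, hN r hr', mul_one, Real.norm_eq_abs,
        abs_of_nonneg (div_nonneg (hw r hr') (sq_nonneg _))]
  have e1 : σ t = ((σ t - (qP c μ σ N t)⁻¹ • N t) + (qP c μ σ N 0)⁻¹ • N 0) +
      (qP c μ σ N t)⁻¹ • N t - (qP c μ σ N 0)⁻¹ • N 0 := by abel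
  have n1 : ‖(qP c μ σ N t)⁻¹ • N t‖ = (qP c μ σ N t)⁻¹ := by
    rw [norm_smul, hN t ht, mul_one, Real.norm_eq_abs, abs_of_pos (inv_pos.mpr (hq t ht))]
  have n2 : ‖(qP c μ σ N 0)⁻¹ • N 0‖ = (qP c μ σ N 0)⁻¹ := by
    rw [norm_smul, hN 0 hT0, mul_one, Real.norm_eq_abs, abs_of_pos (inv_pos.mpr (hq 0 hT0))]
  have h3 := norm_sub_le (((σ t - (qP c μ σ N t)⁻¹ • N t) + (qP c μ σ N 0)⁻¹ • N 0) +
      (qP c μ σ N t)⁻¹ • N t) ((qP c μ σ N 0)⁻¹ • N 0)
  have h4 := norm_add_le ((σ t - (qP c μ σ N t)⁻¹ • N t) + (qP c μ σ N 0)⁻¹ • N 0)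
      ((qP c μ σ N t)⁻¹ • N t)
  rw [← e1] at h3
  rw [n2] at h3
  rw [n1] at h4
  rw [div_eq_mul_inv]
  linarith

end PRun

end PBH54P
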