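import Pool.Agent.Lib.MP_8d4425_gt.E54.PBounds

set_option autoImplicit false

/-!
# The PNMC system: the cut-off vector field
-/

namespace PBH54P

open Filter Topology PBH54
open scoped NNReal

variable {d n : ℕ}

/-- The product. -/
noncomputable def XPr (c : Fin n → E d) (p : E d × E d × E d) : ℝ :=
  ∏ i, (1 + inner ℝ (c i) p.1)

/-- The product times the gradient of its logarithm. -/
noncomputable def XG (c : Fin n → E d) (p : E d × E d × E d) : E d :=
  ∑ i, (∏ j ∈ Finset.univ.erase i, (1 + inner ℝ (c j) p.1)) • c i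

/-- The field. -/
noncomputable def XP (c : Fin n → E d) (μ : ℝ) (p : E d × E d × E d) : E d × E d × E d :=
  (XPr c p • p.2.1,
    XG c p - (inner ℝ (XG c p) p.2.1 : ℝ) • p.2.1 - ((1 - μ) * inner ℝ (XG c p) p.2.2) • p.2.2,
    -((μ * inner ℝ (XG c p) p.2.2) • p.2.1))

theorem XP_contDiff (c : Fin n → E d) (μ : ℝ) : ContDiff ℝ 1 (XP c μ) := by
  have h0 : ContDiff ℝ 1 (fun p : E d × E d × E d => p.1) := contDiff_fst
  have h1 : ContDiff ℝ 1 (fun p : E d × E d × E d => p.2.1) := contDiff_fst.comp contDiff_snd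
  have h2 : ContDiff ℝ 1 (fun p : E d × E d × E d => p.2.2) := contDiff_snd.comp contDiff_snd
  have hρ : ∀ i : Fin n, ContDiff ℝ 1 (fun p : E d × E d × E d => 1 + (inner ℝ (c i) p.1 : ℝ)) :=
    fun i => contDiff_const.add (contDiff_const.inner ℝ h0)
  have hP : ContDiff ℝ 1 (XPr c) := contDiff_prod fun i _ => hρ i
  have hG : ContDiff ℝ 1 (XG c) := ContDiff.sum fun i _ =>
    (contDiff_prod fun j _ => hρ j).smul contDiff_const
  have ha : ContDiff ℝ 1 (fun p : E d × E d × E d => (inner ℝ (XG c p) p.2.1 : ℝ)) :=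
    hG.inner ℝ h1
  have hb : ContDiff ℝ 1 (fun p : E d × E d × E d => (inner ℝ (XG c p) p.2.2 : ℝ)) :=
    hG.inner ℝ h2
  unfold XP
  exact (hP.smul h1).prodMk (((hG.sub (ha.smul h1)).sub ((contDiff_const.mul hb).smul h2)).prodMk
    ((contDiff_const.mul hb).smul h1).neg)

/-- A global solution of the cut-off system. -/
theorem exists_cut (c : Fin n → E d) (μ R : ℝ) (hR : 0 < R) (T0 N0 : E d) :
    ∃ γ : ℝ → E d × E d × E d, γ 0 = (0, T0, N0) ∧ (∀ t, ContinuousAt γ t) ∧
      ∀ t, ‖γ t‖ ≤ R → HasDerivAt γ (XP c μ (γ t)) t := by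
  let χ : ContDiffBump (0 : E d × E d × E d) := ⟨R, R + 1, hR, lt_add_one R⟩
  let G : E d × E d × E d → E d × E d × E d := fun p => χ p • XP c μ p
  have hG : ContDiff ℝ 1 G := χ.contDiff.smul (XP_contDiff c μ)
  have hc : HasCompactSupport G := χ.hasCompactSupport.smul_right
  obtain ⟨K, hK⟩ := ContDiff.lipschitzWith_of_hasCompactSupport hc hG one_ne_zero
  obtain ⟨C, hC⟩ := hc.exists_bound_of_continuous hG.continuous
  have hL : ∀ p, ‖G p‖ ≤ ((Real.toNNReal C : ℝ≥0) : ℝ) := fun p =>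
    (hC p).trans (Real.le_coe_toNNReal C)
  obtain ⟨γ, h1, h2⟩ := global_sol hK hL (0, T0, N0)
  refine ⟨γ, h1, fun t => (h2 t).continuousAt, fun t hx => ?_⟩
  have h3 : γ t ∈ Metric.closedBall (0 : E d × E d × E d) R := by
    rw [mem_closedBall_zero_iff]
    exact hx
  have h4 : χ (γ t) = 1 := χ.one_of_mem_closedBall h3
  have h5 := h2 t
  have h6 : G (γ t) = XP c μ (γ t) := by
    change χ (γ t) • XP c μ (γ t) = _
    rw [h4, one_smul]
  rw [h6] at h5
  exact h5

end PBH54P
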