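import Pool.Agent.Lib.MP_8d4425_gt.E54.PField
import Pool.Agent.Lib.MP_8d4425_gt.H48.Ode2

set_option autoImplicit false

/-!
# The ODE theorem for PNMC immersions
-/

namespace PBH54P

open Filter Topology MvPolynomial PBH54

variable {d n : ℕ}

/-- A point of the phase space. -/
noncomputable def pt (T N : E d) (r : Fin n → ℝ) : Ix d n → ℝ :=
  Sum.elim (fun a => T a) (Sum.elim (fun a => N a) (fun i => r i))

theorem pt_ipT (T N v : E d) (r : Fin n → ℝ) : eval (pt T N r) (ipT n v) = inner ℝ v T := by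
  unfold ipT Tp pt
  simp only [map_sum, map_mul, eval_C, eval_X, Sum.elim_inl, PiLp.inner_apply]
  refine Finset.sum_congr rfl fun a _ => ?_
  simp [mul_comm]

theorem pt_ipN (T N v : E d) (r : Fin n → ℝ) : eval (pt T N r) (ipN n v) = inner ℝ v N := by
  unfold ipN Np pt
  simp only [map_sum, map_mul, eval_C, eval_X, Sum.elim_inl, Sum.elim_inr, PiLp.inner_apply]
  refine Finset.sum_congr rfl fun a _ => ?_
  simp [mul_comm]

theorem pt_Rp (T N : E d) (r : Fin n → ℝ) (i : Fin n) :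
    eval (pt T N r) (Rp d n i) = r i := by
  unfold Rp pt
  simp only [eval_X, Sum.elim_inr]

theorem pt_gTp (cc : Fin n → Fin n → E d) (T N : E d) (r : Fin n → ℝ) :
    eval (pt T N r) (gTp fun i => cc i i) = PBH48.bb cc T r := by
  unfold gTp PBH48.bb PBH48.gg
  simp only [map_sum, map_mul, pt_Rp, pt_ipT, sum_inner, inner_smul_left]
  simp

theorem pt_gNp (cc : Fin n → Fin n → E d) (T N : E d) (r : Fin n → ℝ) :
    eval (pt T N r) (gNp fun i => cc i i) = inner ℝ (PBH48.gg cc r) N := by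
  unfold gNp PBH48.gg
  simp only [map_sum, map_mul, pt_Rp, pt_ipN, sum_inner, inner_smul_left]
  simp

theorem pt_kP (cc : Fin n → Fin n → E d) (μ : ℝ) (T N : E d) (r : Fin n → ℝ) :
    eval (pt T N r) (kP (fun i => cc i i) μ) = PBH48.ka μ cc N r := by
  unfold kP PBH48.ka
  rw [map_mul, eval_C, pt_gNp]

theorem pt_QP (cc : Fin n → Fin n → E d) (T N : E d) (r : Fin n → ℝ) :
    eval (pt T N r) (QP cc) = PBH48.qq cc N r := by
  unfold QP PBH48.qq
  simp only [map_sum, map_mul, map_pow, pt_Rp, pt_ipN]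

section Local

variable {μ ν ε : ℝ} {cc : Fin n → Fin n → E d} {T N : ℝ → E d} {r : Fin n → ℝ → ℝ}

theorem pt_dz (h : PBH48.Loc2 n d μ ν ε cc T N r) : ∀ s, |s| < ε → ∀ i,
    HasDerivAt (fun s => pt (T s) (N s) (fun i => r i s) i)
      (eval (pt (T s) (N s) (fun i => r i s)) (VP (fun i => cc i i) μ i)) s := by
  intro s hs i
  have hs' : s ∈ Set.Ioo (-ε) ε := abs_lt.mp hs
  rcases i with a | a | i
  · have h1 := (EuclideanSpace.proj a : E d →L[ℝ] ℝ).hasFDerivAt.comp_hasDerivAt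
      s (h.dT s hs')
    refine h1.congr_deriv ?_
    simp only [VP, Sum.elim_inl, map_sub, map_mul, eval_C, pt_gTp, pt_gNp, map_sum, pt_Rp]
    change (PBH48.gg cc (fun i => r i s) -
      (inner ℝ (PBH48.gg cc (fun i => r i s)) (T s) : ℝ) • T s -
      ((1 - μ) * inner ℝ (PBH48.gg cc (fun i => r i s)) (N s)) • N s) a = _
    simp only [PiLp.smul_apply, PiLp.sub_apply, smul_eq_mul]
    have e1 : eval (pt (T s) (N s) (fun i => r i s)) (Tp d n a) = T s a := by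
      unfold Tp pt
      simp only [eval_X, Sum.elim_inl]
    have e2 : eval (pt (T s) (N s) (fun i => r i s)) (Np d n a) = N s a := by
      unfold Np pt
      simp only [eval_X, Sum.elim_inl, Sum.elim_inr]
    have e3 : (PBH48.gg cc (fun i => r i s)) a = ∑ i, r i s * cc i i a := by
      unfold PBH48.gg
      simp
    rw [e1, e2, e3]
    rfl
  · have h1 := (EuclideanSpace.proj a : E d →L[ℝ] ℝ).hasFDerivAt.comp_hasDerivAt
      s (h.dN s hs')
    refine h1.congr_deriv ?_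
    simp only [VP, Sum.elim_inr, Sum.elim_inl, map_neg, map_mul, eval_C, pt_gNp]
    change ((-(PBH48.ka μ cc (N s) (fun i => r i s))) • T s) a = _
    simp only [PiLp.smul_apply, smul_eq_mul]
    have e1 : eval (pt (T s) (N s) (fun i => r i s)) (Tp d n a) = T s a := by
      unfold Tp pt
      simp only [eval_X, Sum.elim_inl]
    rw [e1]
    unfold PBH48.ka
    ring
  · refine (h.dr s hs' i).congr_deriv ?_
    simp only [VP, Sum.elim_inr, map_neg, map_mul, map_pow, pt_ipT, pt_Rp]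

theorem pt_dg (h : PBH48.Loc2 n d μ ν ε cc T N r) : ∀ s, |s| < ε →
    HasDerivAt (fun s => PBH48.gg cc (fun i => r i s))
      (PBH48.gg1 cc (T s) (fun i => r i s)) s := by
  intro s hs
  have hs' : s ∈ Set.Ioo (-ε) ε := abs_lt.mp hs
  unfold PBH48.gg PBH48.gg1
  exact HasDerivAt.fun_sum fun i _ => (h.dr s hs' i).smul_const (cc i i)

theorem pt_k1P (h : PBH48.Loc2 n d μ ν ε cc T N r) : ∀ s, |s| < ε →
    eval (pt (T s) (N s) (fun i => r i s)) (k1P (fun i => cc i i) μ) =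
      PBH48.ka1 μ cc (T s) (N s) (fun i => r i s) := by
  intro s hs
  have hs' : s ∈ Set.Ioo (-ε) ε := abs_lt.mp hs
  have h1 := hasDerivAt_eval (VP (fun i => cc i i) μ)
    (fun s => pt (T s) (N s) (fun i => r i s)) 1 s (fun i => by
      rw [one_mul]
      exact pt_dz h s hs i) (kP (fun i => cc i i) μ)
  rw [one_mul] at h1
  have h2 : (fun s => eval (pt (T s) (N s) (fun i => r i s)) (kP (fun i => cc i i) μ)) =
      fun s => μ * inner ℝ (PBH48.gg cc (fun i => r i s)) (N s) := by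
    funext t
    rw [pt_kP]
    rfl
  have h3 := ((pt_dg h s hs).inner ℝ (h.dN s hs')).const_mul μ
  rw [← h2] at h3
  have h4 := h1.unique h3
  unfold k1P
  rw [h4]
  unfold PBH48.ka1
  ring

theorem pt_GP (h : PBH48.Loc2 n d μ ν ε cc T N r) : ∀ s, |s| < ε →
    eval (pt (T s) (N s) (fun i => r i s)) (GP (fun i => cc i i) cc μ ν) = 0 := by
  intro s hs
  have hs' : s ∈ Set.Ioo (-ε) ε := abs_lt.mp hs
  have h1 := hasDerivAt_eval (VP (fun i => cc i i) μ)
    (fun s => pt (T s) (N s) (fun i => r i s)) 1 s (fun i => by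
      rw [one_mul]
      exact pt_dz h s hs i) (k1P (fun i => cc i i) μ)
  rw [one_mul] at h1
  have h2 : (fun s => eval (pt (T s) (N s) (fun i => r i s)) (k1P (fun i => cc i i) μ)) =ᶠ[𝓝 s]
      fun t => PBH48.ka1 μ cc (T t) (N t) (fun i => r i t) := by
    have h3 : ∀ᶠ t in 𝓝 s, |t| < ε := (continuous_abs.tendsto s).eventually (gt_mem_nhds hs)
    filter_upwards [h3] with t ht
    exact pt_k1P h t ht
  have h4 := h1.unique ((h.eq s hs').congr_of_eventuallyEq h2)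
  unfold GP
  simp only [map_sub, map_mul, map_add, eval_C, map_pow, pt_kP, pt_gTp, pt_QP, pt_k1P h s hs]
  rw [h4]
  ring

end Local

/-- The start of the curve. -/
theorem zP_start {μ ν ε : ℝ} {cc : Fin n → Fin n → E d} {T N : ℝ → E d} {r : Fin n → ℝ → ℝ}
    (h : PBH48.Loc2 n d μ ν ε cc T N r) {σ U V : ℝ → E d} (hσ : σ 0 = 0) (hU : U 0 = T 0)
    (hV : V 0 = N 0) :
    zP (fun i => cc i i) σ U V 0 = pt (T 0) (N 0) (fun i => r i 0) := by
  funext i
  rcases i with a | a | i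
  · change U 0 a = T 0 a
    rw [hU]
  · change V 0 a = N 0 a
    rw [hV]
  · change (ro (fun i => cc i i) σ i 0)⁻¹ = r i 0
    unfold ro
    rw [hσ, inner_zero_right, h.r0]
    norm_num

/-- **The ODE theorem for PNMC immersions.** -/
theorem ode2_main : PBH48.Ode2Statement := by
  intro n d μ ν ε cc T0 N0 r hμ hμ1 hν h
  obtain ⟨c, hc⟩ : ∃ c : Fin n → E d, c = fun i => cc i i := ⟨_, rfl⟩
  obtain ⟨q0, hq0⟩ : ∃ q0, q0 = -PBH48.ka μ cc (N0 0) (fun i => r i 0) := ⟨_, rfl⟩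
  have hq0pos : 0 < q0 := by
    have := h.neg
    rw [hq0]
    linarith
  obtain ⟨w0, hw0⟩ : ∃ w0, w0 = -PBH48.ka1 μ cc (T0 0) (N0 0) (fun i => r i 0) := ⟨_, rfl⟩
  have hw0pos : 0 < w0 := by
    have := h.neg1
    rw [hw0]
    linarith
  have habs : |(0 : ℝ)| < ε := by
    rw [abs_zero]
    exact h.pos
  -- the cut-off solution
  have hR : 0 < 2 / q0 + 2 := by positivity
  obtain ⟨γ, hγ0, hγc, hγ⟩ := exists_cut c μ (2 / q0 + 2) hR (T0 0) (N0 0)
  obtain ⟨σ, hσ⟩ : ∃ σ : ℝ → E d, σ = fun t => (γ t).1 := ⟨_, rfl⟩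
  obtain ⟨T, hT⟩ : ∃ T : ℝ → E d, T = fun t => (γ t).2.1 := ⟨_, rfl⟩
  obtain ⟨N, hN⟩ : ∃ N : ℝ → E d, N = fun t => (γ t).2.2 := ⟨_, rfl⟩
  have hσ0 : σ 0 = 0 := by rw [hσ]; simp only [hγ0]
  have hT0 : T 0 = T0 0 := by rw [hT]; simp only [hγ0]
  have hN0 : N 0 = N0 0 := by rw [hN]; simp only [hγ0]
  have hz0 : zP c σ T N 0 = pt (T0 0) (N0 0) (fun i => r i 0) := by
    rw [hc]
    exact zP_start h hσ0 hT0 hN0
  have hqv : qP c μ σ N 0 = q0 := by
    have h1 := eval_kP c μ σ T N 0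
    rw [hz0, hc, pt_kP] at h1
    rw [hq0, hc]
    linarith
  have hPd0 : Pd c σ 0 = 1 := by
    unfold Pd ro
    rw [hσ0]
    simp
  have hwv : wP c μ σ T N 0 = w0 := by
    unfold wP
    rw [hPd0, hz0, hc, pt_k1P h 0 habs, hw0]
    ring
  have hnorm : ∀ t, ‖γ t‖ = max ‖σ t‖ (max ‖T t‖ ‖N t‖) := by
    intro t
    rw [Prod.norm_def, Prod.norm_def, hσ, hT, hN]
  have hrun : ∀ τ, (∀ t ∈ Set.Icc 0 τ, ‖γ t‖ ≤ 2 / q0 + 2) → PRun c μ σ T N τ := by
    intro τ hτ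
    refine ⟨?_, ?_, ?_, hσ0⟩
    · intro t ht
      have h3 := (hγ t (hτ t ht)).fst
      rw [hσ, hT]
      exact h3
    · intro t ht
      have h3 := (hγ t (hτ t ht)).snd.fst
      rw [hσ, hT, hN]
      exact h3
    · intro t ht
      have h3 := (hγ t (hτ t ht)).snd.snd
      rw [hσ, hT, hN]
      exact h3
  have hGG : ∀ τ, PRun c μ σ T N τ → ∀ t ∈ Set.Icc 0 τ,
      eval (zP c σ T N t) (GP c cc μ ν) = 0 := by
    intro τ hτ
    refine persist (VP c μ) (GP c cc μ ν) (fun s => pt (T0 s) (N0 s) (fun i => r i s)) ε h.pos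
      ?_ ?_ (zP c σ T N) (Pd c σ) τ hτ.dz hτ.cP hz0
    · rw [hc]
      exact pt_dz h
    · rw [hc]
      exact pt_GP h
  have hunit : ∀ τ, PRun c μ σ T N τ → ∀ t ∈ Set.Icc 0 τ,
      ‖T t‖ = 1 ∧ ‖N t‖ = 1 ∧ inner ℝ (T t) (N t) = (0 : ℝ) := by
    intro τ hτ
    exact hτ.unit hμ.le hμ1 (by rw [hT0]; exact h.T0) (by rw [hN0]; exact h.N0)
      (by rw [hT0, hN0]; exact h.TN)
  have hqw : ∀ τ, PRun c μ σ T N τ → ∀ t ∈ Set.Icc 0 τ,
      0 < qP c μ σ N t ∧ wP c μ σ T N 0 ≤ wP c μ σ T N t := by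
    intro τ hτ
    exact hτ.q_w hν (hGG τ hτ) (by rw [hqv]; exact hq0pos) (by rw [hwv]; exact hw0pos)
  have hq2 : 0 < 2 / q0 := by positivity
  -- the bound holds for ever
  have hbound : ∀ τ, 0 ≤ τ → ∀ t ∈ Set.Icc 0 τ, ‖γ t‖ ≤ 2 / q0 + 1 := by
    intro τ _
    refine cont_method (b := 2 / q0 + 2) (Continuous.continuousOn ?_) (by linarith) ?_ ?_
    · exact (continuous_iff_continuousAt.mpr hγc).norm
    · rw [hnorm, hσ0, hT0, hN0, h.T0, h.N0, norm_zero]
      refine max_le ?_ (max_le ?_ ?_) <;> linarith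
    · intro τ' hτ' hb
      have hr := hrun τ' hb
      have hm : τ' ∈ Set.Icc 0 τ' := ⟨hτ'.1, le_rfl⟩
      have hu := hunit τ' hr τ' hm
      have h1 := hr.σ_bound (fun t ht => (hunit τ' hr t ht).2.1)
        (fun t ht => (hqw τ' hr t ht).1)
        (fun t ht => by
          have := (hqw τ' hr t ht).2
          rw [hwv] at this
          linarith) τ' hm
      rw [hqv] at h1
      rw [hnorm, hu.1, hu.2.1]
      refine max_le ?_ (max_le ?_ ?_) <;> linarith
  have hrun' : ∀ τ, 0 ≤ τ → PRun c μ σ T N τ := fun τ hτ =>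
    hrun τ fun t ht => (hbound τ hτ t ht).trans (by linarith)
  refine PBH48.no_sol (c := c) (μ := μ) (w0 := w0) (z := σ) (T := T) (N := N)
    (q := qP c μ σ N) (w := wP c μ σ T N)
    (w1 := fun t => Pd c σ t ^ 2 * (qP c μ σ N t *
      ((1 + ν) * qP c μ σ N t ^ 2 + Qd c cc σ N t)))
    ⟨hμ, hμ1, hw0pos, ?_, ?_, ?_, ?_, ?_, ?_, ?_, ?_, ?_, ?_, ?_, ?_, ?_⟩
  · exact fun t ht i => (hrun' t ht).ρpos i t ⟨ht, le_rfl⟩
  · exact fun t ht => (hunit t (hrun' t ht) t ⟨ht, le_rfl⟩).1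
  · exact fun t ht => (hunit t (hrun' t ht) t ⟨ht, le_rfl⟩).2.1
  · exact fun t ht => (hunit t (hrun' t ht) t ⟨ht, le_rfl⟩).2.2
  · exact fun t ht => (hrun' t ht).dσ t ⟨ht, le_rfl⟩
  · exact fun t ht => (hrun' t ht).dT' t ⟨ht, le_rfl⟩
  · exact fun t ht => (hrun' t ht).dN' t ⟨ht, le_rfl⟩
  · exact fun t _ => rfl
  · exact fun t ht => (hqw t (hrun' t ht) t ⟨ht, le_rfl⟩).1
  · exact fun t ht => (hrun' t ht).dq t ⟨ht, le_rfl⟩
  · intro t ht
    have h1 := (hqw t (hrun' t ht) t ⟨ht, le_rfl⟩).2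
    rw [hwv] at h1
    exact h1
  · exact fun t ht => (hrun' t ht).dw (hGG t (hrun' t ht)) t ⟨ht, le_rfl⟩
  · intro t ht
    have hm : t ∈ Set.Icc 0 t := ⟨ht, le_rfl⟩
    have hq := (hqw t (hrun' t ht) t hm).1
    have hQ := (hrun' t ht).Q_nonneg (cc := cc) t hm
    change Pd c σ t ^ 2 * qP c μ σ N t ^ 3 ≤ _
    refine mul_le_mul_of_nonneg_left ?_ (sq_nonneg _)
    have h1 : 0 ≤ qP c μ σ N t * (ν * qP c μ σ N t ^ 2 + Qd c cc σ N t) :=
      mul_nonneg hq.le (add_nonneg (mul_nonneg hν (sq_nonneg _)) hQ)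
    nlinarith [h1]

end PBH54P
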