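import Mathlib

set_option autoImplicit false

/-!
# Monotone functions with limits
-/

namespace PBH54

open Filter Topology

/-- Nonnegative derivative on `[a, ∞)`. -/
theorem mono_of {f f' : ℝ → ℝ} {a : ℝ} (h : ∀ t, a ≤ t → HasDerivAt f (f' t) t)
    (h0 : ∀ t, a ≤ t → 0 ≤ f' t) : ∀ s t, a ≤ s → s ≤ t → f s ≤ f t := by
  intro s t hs hst
  have h1 : MonotoneOn f (Set.Ici a) := by
    apply monotoneOn_of_deriv_nonneg (convex_Ici a)
    · intro r hr
      exact (h r hr).continuousAt.continuousWithinAt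
    · intro r hr
      rw [interior_Ici] at hr
      exact (h r (le_of_lt hr)).differentiableAt.differentiableWithinAt
    · intro r hr
      rw [interior_Ici] at hr
      rw [(h r (le_of_lt hr)).deriv]
      exact h0 r (le_of_lt hr)
  exact h1 hs (le_trans hs hst) hst

/-- Nonpositive derivative on `[a, ∞)`. -/
theorem anti_of {f f' : ℝ → ℝ} {a : ℝ} (h : ∀ t, a ≤ t → HasDerivAt f (f' t) t)
    (h0 : ∀ t, a ≤ t → f' t ≤ 0) : ∀ s t, a ≤ s → s ≤ t → f t ≤ f s := by
  intro s t hs hst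
  have h1 := mono_of (f := fun t => -f t) (f' := fun t => -f' t) (a := a)
    (fun r hr => (h r hr).neg) (fun r hr => neg_nonneg.mpr (h0 r hr)) s t hs hst
  simpa using h1

/-- An increasing function is below its limit. -/
theorem le_lim {f f' : ℝ → ℝ} {a l : ℝ} (h : ∀ t, a ≤ t → HasDerivAt f (f' t) t)
    (h0 : ∀ t, a ≤ t → 0 ≤ f' t) (hl : Tendsto f atTop (𝓝 l)) : ∀ s, a ≤ s → f s ≤ l := by
  intro s hs
  refine ge_of_tendsto hl ?_
  filter_upwards [eventually_ge_atTop s] with t ht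
  exact mono_of h h0 s t hs ht

/-- A decreasing function is above its limit. -/
theorem lim_le {f f' : ℝ → ℝ} {a l : ℝ} (h : ∀ t, a ≤ t → HasDerivAt f (f' t) t)
    (h0 : ∀ t, a ≤ t → f' t ≤ 0) (hl : Tendsto f atTop (𝓝 l)) : ∀ s, a ≤ s → l ≤ f s := by
  intro s hs
  refine le_of_tendsto hl ?_
  filter_upwards [eventually_ge_atTop s] with t ht
  exact anti_of h h0 s t hs ht

/-- A monotone bounded function on `[a, ∞)` converges. -/
theorem exists_lim {f f' : ℝ → ℝ} {a B : ℝ} (h : ∀ t, a ≤ t → HasDerivAt f (f' t) t)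
    (h0 : ∀ t, a ≤ t → 0 ≤ f' t) (hB : ∀ t, a ≤ t → f t ≤ B) : ∃ l, Tendsto f atTop (𝓝 l) := by
  have hm : Monotone (fun t => f (max a t)) := by
    intro s t hst
    exact mono_of h h0 _ _ (le_max_left _ _) (max_le_max_left _ hst)
  have hb : BddAbove (Set.range (fun t => f (max a t))) := by
    refine ⟨B, ?_⟩
    rintro _ ⟨t, rfl⟩
    exact hB _ (le_max_left _ _)
  refine ⟨_, (tendsto_atTop_ciSup hm hb).congr' ?_⟩
  filter_upwards [eventually_ge_atTop a] with t ht
  simp [max_eq_right ht]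

/-- A decreasing function on `[a, ∞)` tends to `-∞` or converges. -/
theorem anti_dich {f f' : ℝ → ℝ} {a : ℝ} (h : ∀ t, a ≤ t → HasDerivAt f (f' t) t)
    (h0 : ∀ t, a ≤ t → f' t ≤ 0) : Tendsto f atTop atBot ∨ ∃ l, Tendsto f atTop (𝓝 l) := by
  have hm : Antitone (fun t => f (max a t)) := by
    intro s t hst
    exact anti_of h h0 _ _ (le_max_left _ _) (max_le_max_left _ hst)
  have he : (fun t => f (max a t)) =ᶠ[atTop] f := by
    filter_upwards [eventually_ge_atTop a] with t ht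
    simp [max_eq_right ht]
  rcases tendsto_of_antitone hm with h1 | ⟨l, h1⟩
  · exact Or.inl (h1.congr' he)
  · exact Or.inr ⟨l, h1.congr' he⟩

/-- The first coordinate of the curve converges. -/
theorem conv {P x θ q q' : ℝ → ℝ}
    (dx : ∀ t, 0 ≤ t → HasDerivAt x (P t * Real.cos (θ t)) t)
    (dθ : ∀ t, 0 ≤ t → HasDerivAt θ (-(P t * q t)) t)
    (dq : ∀ t, 0 ≤ t → HasDerivAt q (q' t) t) (hq' : ∀ t, 0 ≤ t → 0 ≤ q' t)
    (qpos : ∀ t, 0 ≤ t → 0 < q t) (qtop : Tendsto q atTop atTop) :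
    ∃ l, Tendsto x atTop (𝓝 l) := by
  have d1 : ∀ t, 0 ≤ t → HasDerivAt (fun t => x t + (Real.sin (θ t) - 1) / q t)
      ((1 - Real.sin (θ t)) * q' t / q t ^ 2) t := by
    intro t ht
    have hq := (qpos t ht).ne'
    have h1 := (dx t ht).add ((((dθ t ht).sin).sub_const 1).div (dq t ht) hq)
    refine h1.congr_deriv ?_
    field_simp
    ring
  have d2 : ∀ t, 0 ≤ t → HasDerivAt (fun t => x t + (Real.sin (θ t) + 1) / q t)
      (-((1 + Real.sin (θ t)) * q' t / q t ^ 2)) t := by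
    intro t ht
    have hq := (qpos t ht).ne'
    have h1 := (dx t ht).add ((((dθ t ht).sin).add_const 1).div (dq t ht) hq)
    refine h1.congr_deriv ?_
    field_simp
    ring
  have p1 : ∀ t, 0 ≤ t → 0 ≤ (1 - Real.sin (θ t)) * q' t / q t ^ 2 := by
    intro t ht
    have := Real.sin_le_one (θ t)
    have h2 := hq' t ht
    exact div_nonneg (mul_nonneg (by linarith) h2) (sq_nonneg _)
  have p2 : ∀ t, 0 ≤ t → -((1 + Real.sin (θ t)) * q' t / q t ^ 2) ≤ 0 := by
    intro t ht
    have := Real.neg_one_le_sin (θ t)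
    have h2 := hq' t ht
    have h3 : 0 ≤ (1 + Real.sin (θ t)) * q' t / q t ^ 2 :=
      div_nonneg (mul_nonneg (by linarith) h2) (sq_nonneg _)
    linarith
  have hB : ∀ t, 0 ≤ t → x t + (Real.sin (θ t) - 1) / q t ≤ x 0 + (Real.sin (θ 0) + 1) / q 0 := by
    intro t ht
    have h1 := anti_of d2 p2 0 t le_rfl ht
    have h2 : (Real.sin (θ t) - 1) / q t ≤ (Real.sin (θ t) + 1) / q t :=
      div_le_div_of_nonneg_right (by linarith) (qpos t ht).le
    linarith
  obtain ⟨l, hl⟩ := exists_lim d1 p1 hB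
  refine ⟨l, ?_⟩
  have h3 : Tendsto (fun t => (Real.sin (θ t) - 1) / q t) atTop (𝓝 0) := by
    rw [tendsto_zero_iff_abs_tendsto_zero]
    have h4 : Tendsto (fun t => 2 / q t) atTop (𝓝 0) := qtop.const_div_atTop 2
    refine squeeze_zero' (Eventually.of_forall fun t => abs_nonneg _) ?_ h4
    filter_upwards [eventually_ge_atTop 0] with t ht
    have hq := qpos t ht
    change |(Real.sin (θ t) - 1) / q t| ≤ 2 / q t
    rw [abs_div, abs_of_pos hq]
    refine div_le_div_of_nonneg_right ?_ hq.le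
    have h5 := Real.sin_le_one (θ t)
    have h6 := Real.neg_one_le_sin (θ t)
    rw [abs_le]
    constructor <;> linarith
  have h7 := hl.sub h3
  simpa using h7

end PBH54
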